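import Pool.Agent.Lib_helper30.AA.Flat

set_option autoImplicit false
set_option linter.unusedSectionVars false

open Finset

namespace Pool.Agent.Lib_helper30.AA.GAP


variable {I : Type} [Fintype I] [DecidableEq I]

/-- Small certificates for a threshold function of a bounded function with a gap. -/
lemma exists_cert_gap {f : (I → Bool) → ℝ} (hf : ∀ x, |f x| ≤ 1) {d : ℕ}
    (hdeg : ∀ S : Finset I, d < S.card → coef f S = 0) {κ : ℝ} (hκ : 0 < κ)
    {T : (I → Bool) → ℝ} (hgap : ∀ x y : I → Bool, T x ≠ T y → κ ≤ |f x - f y|)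
    {s : ℕ} (hs : 8 * (d : ℝ) ^ 2 < κ * (s + 1)) (x : I → Bool) :
    ∃ S : Finset I, S.card ≤ s * s ∧ ∀ y : I → Bool, (∀ i ∈ S, y i = x i) → T y = T x := by
  classical
  set 𝓜 : Finset (Finset I) := Finset.univ.filter (fun B => T (flipSet B x) ≠ T x ∧
    ∀ i ∈ B, T (flipSet (B.erase i) x) = T x) with h𝓜
  have hmem : ∀ B, B ∈ 𝓜 ↔ (T (flipSet B x) ≠ T x ∧
      ∀ i ∈ B, T (flipSet (B.erase i) x) = T x) := by
    intro B; rw [h𝓜]; simp
  obtain ⟨𝓑, h𝓑mem, h𝓑max⟩ := Finset.exists_max_image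
    (𝓜.powerset.filter (fun 𝓑 => ((𝓑 : Finset (Finset I)) : Set (Finset I)).PairwiseDisjoint id))
    Finset.card ⟨∅, by simp⟩
  rw [Finset.mem_filter, Finset.mem_powerset] at h𝓑mem
  obtain ⟨hsub, hdisj⟩ := h𝓑mem
  have hne : ∀ B ∈ 𝓜, B.Nonempty := by
    intro B hB
    by_contra hcon
    rw [Finset.not_nonempty_iff_eq_empty] at hcon
    have := ((hmem B).1 hB).1
    rw [hcon, flipSet_empty] at this
    exact this rfl
  have hbig : ∀ B ∈ 𝓜, κ ≤ |f (flipSet B x) - f x| := by
    intro B hB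
    exact hgap _ _ ((hmem B).1 hB).1
  have hcount : ∀ m : ℕ, (m : ℝ) * κ ≤ 8 * (d : ℝ) ^ 2 → m ≤ s := by
    intro m hm
    by_contra hcon
    push Not at hcon
    have h1 : (s : ℝ) + 1 ≤ m := by exact_mod_cast hcon
    nlinarith
  have h𝓑card : 𝓑.card ≤ s := by
    apply hcount
    refine le_trans ?_ (block_l1 hf hdeg hdisj x)
    rw [← nsmul_eq_mul]
    exact Finset.card_nsmul_le_sum _ _ _ fun B hB => hbig B (hsub hB)
  have hBcard : ∀ B ∈ 𝓜, B.card ≤ s := by
    intro B hB
    apply hcount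
    refine le_trans ?_ (sens_l1 hf hdeg B (flipSet B x))
    rw [← nsmul_eq_mul]
    refine Finset.card_nsmul_le_sum _ _ _ fun i hi => ?_
    obtain ⟨h1, h2⟩ := (hmem B).1 hB
    apply hgap
    rw [flip_flipSet hi, h2 i hi]
    exact h1
  refine ⟨𝓑.biUnion id, ?_, ?_⟩
  · calc (𝓑.biUnion id).card ≤ 𝓑.card * s :=
        Finset.card_biUnion_le_card_mul _ _ _ fun B hB => hBcard B (hsub hB)
      _ ≤ s * s := Nat.mul_le_mul_right _ h𝓑card
  · intro y hy
    by_contra hcon
    set B0 : Finset I := Finset.univ.filter (fun i => x i ≠ y i) with hB0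
    have hB0y : flipSet B0 x = y := by
      funext i
      unfold flipSet
      by_cases h : x i = y i
      · simp [hB0, h]
      · have : i ∈ B0 := by rw [hB0]; simp [h]
        rw [if_pos this]
        cases hx : x i <;> cases hy' : y i <;> simp_all
    obtain ⟨B, hBmem, hBmin⟩ := Finset.exists_min_image
      (B0.powerset.filter (fun B => T (flipSet B x) ≠ T x)) Finset.card
      ⟨B0, by rw [Finset.mem_filter, hB0y]; exact ⟨Finset.mem_powerset_self _, hcon⟩⟩
    rw [Finset.mem_filter, Finset.mem_powerset] at hBmem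
    have hB𝓜 : B ∈ 𝓜 := by
      rw [hmem]
      refine ⟨hBmem.2, fun i hi => ?_⟩
      by_contra h
      have := hBmin (B.erase i) (by
        rw [Finset.mem_filter, Finset.mem_powerset]
        exact ⟨(Finset.erase_subset _ _).trans hBmem.1, h⟩)
      rw [Finset.card_erase_of_mem hi] at this
      have := Finset.card_pos.2 ⟨i, hi⟩
      omega
    have hBdisj : ∀ B' ∈ 𝓑, Disjoint B B' := by
      intro B' hB'
      rw [Finset.disjoint_left]
      intro i hi hi'
      have h1 : i ∈ 𝓑.biUnion id := Finset.mem_biUnion.2 ⟨B', hB', hi'⟩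
      have h2 := (Finset.mem_filter.1 (hBmem.1 hi)).2
      exact h2 (hy i h1).symm
    have hBnot : B ∉ 𝓑 := by
      intro h
      have := hBdisj B h
      rw [Finset.disjoint_self_iff_empty] at this
      exact (hne B hB𝓜).ne_empty this
    have := h𝓑max (insert B 𝓑) (by
      rw [Finset.mem_filter, Finset.mem_powerset]
      refine ⟨Finset.insert_subset hB𝓜 hsub, ?_⟩
      rw [Finset.coe_insert, Set.pairwiseDisjoint_insert]
      exact ⟨hdisj, fun B' hB' _ => hBdisj B' hB'⟩)
    rw [Finset.card_insert_of_notMem hBnot] at this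
    omega

/-- Variance against the largest influence for such a threshold function. -/
lemma var_le_gap {f : (I → Bool) → ℝ} (hf : ∀ x, |f x| ≤ 1) {d : ℕ}
    (hdeg : ∀ S : Finset I, d < S.card → coef f S = 0) {κ : ℝ} (hκ : 0 < κ)
    {T : (I → Bool) → ℝ} (hT : ∀ x, T x = 0 ∨ T x = 1)
    (hgap : ∀ x y : I → Bool, T x ≠ T y → κ ≤ |f x - f y|)
    {s : ℕ} (hs : 8 * (d : ℝ) ^ 2 < κ * (s + 1)) {τ : ℝ} (hτ : 0 ≤ τ)
    (hinf : ∀ i, ex (fun x => |T x - T (flip i x)|) ≤ τ) :
    ex T * (1 - ex T) ≤ ((s * s * (s * s + 1) : ℕ) : ℝ) * τ / 2 := by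
  have hc : Comp (s * s * (s * s + 1)) T := comp_of_cert (s * s) T
    (fun x => exists_cert_gap hf hdeg hκ hgap hs x)
  have h1 := osss hτ _ T T hc (fun x => by rcases hT x with h | h <;> rw [h] <;> norm_num) hinf
  have h2 : (fun x => T x * T x) = T := by
    funext x
    rcases hT x with h | h <;> rw [h] <;> norm_num
  rw [h2] at h1
  have h3 := (abs_le.1 h1).2
  linarith

end Pool.Agent.Lib_helper30.AA.GAP
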