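import Pool.Agent.Lib_helper8.GAP.Cert

/-!
# Expectations on cubes: marginals, independence, resampling of a block
-/

set_option autoImplicit false
set_option linter.unusedSectionVars false

open Finset

namespace Pool.Agent.Lib_helper30.AA.GAP

variable {I J K : Type} [Fintype I] [DecidableEq I] [Fintype J] [DecidableEq J]
  [Fintype K] [DecidableEq K]

lemma ex_comm (G : (J → Bool) → (K → Bool) → ℝ) :
    ex (fun x => ex (fun y => G x y)) = ex (fun y => ex (fun x => G x y)) := by
  unfold ex
  rw [← Finset.mul_sum, ← Finset.mul_sum, Finset.sum_comm]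
  ring

lemma ex_nonneg {G : (J → Bool) → ℝ} (h : ∀ x, 0 ≤ G x) : 0 ≤ ex G := by
  have := ex_mono (f := fun _ => (0 : ℝ)) (g := G) h
  rwa [ex_const] at this

lemma ex_mul_const (c : ℝ) (f : (J → Bool) → ℝ) : ex (fun x => f x * c) = ex f * c := by
  have : (fun x => f x * c) = fun x => c * f x := by funext x; ring
  rw [this, ex_const_mul, mul_comm]

lemma chi_comp (κ : K ↪ J) (S : Finset K) (ω : J → Bool) :
    chi S (fun k => ω (κ k)) = chi (S.map κ) ω := by
  unfold chi
  rw [Finset.prod_map]

lemma ex_comp (κ : K ↪ J) (G : (K → Bool) → ℝ) :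
    ex (fun ω : J → Bool => G (fun k => ω (κ k))) = ex G := by
  have h1 : (fun ω : J → Bool => G (fun k => ω (κ k))) =
      fun ω => ∑ S : Finset K, coef G S * chi (S.map κ) ω := by
    funext ω
    rw [inversion G]
    simp_rw [chi_comp]
  rw [h1, ex_sum]
  simp_rw [ex_const_mul, ex_chi, Finset.map_eq_empty]
  simp only [mul_ite, mul_one, mul_zero, Finset.sum_ite_eq', Finset.mem_univ, if_true]
  exact coef_empty G

lemma ex_mix (U : Finset J) (F : (J → Bool) → ℝ) :
    ex (fun z => ex (fun x => F (mix U z x))) = ex F := by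
  have h := ex_coef_mix F U ∅
  rw [if_pos (Finset.empty_subset _)] at h
  have h1 : ∀ z : J → Bool, coef (fun x => F (mix U z x)) ∅ = ex (fun x => F (mix U z x)) :=
    fun z => coef_empty _
  simp_rw [h1] at h
  exact h.trans (coef_empty F)

lemma ex_mul_of_disj {P Q : (J → Bool) → ℝ} (U : Finset J)
    (hP : ∀ x y : J → Bool, (∀ i ∈ U, x i = y i) → P x = P y)
    (hQ : ∀ x y : J → Bool, (∀ i, i ∉ U → x i = y i) → Q x = Q y) :
    ex (fun ω => P ω * Q ω) = ex P * ex Q := by
  rw [← ex_mix U (fun ω => P ω * Q ω)]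
  have h : ∀ z x : J → Bool, P (mix U z x) * Q (mix U z x) = P x * Q z := by
    intro z x
    rw [hP (mix U z x) x (fun i hi => by simp [mix, hi]),
      hQ (mix U z x) z (fun i hi => by simp [mix, hi])]
  simp_rw [h]
  have h2 : ∀ z : J → Bool, ex (fun x => P x * Q z) = ex P * Q z := fun z => ex_mul_const _ _
  simp_rw [h2]
  rw [ex_const_mul]

lemma ex_chi_mul_chi (U V : Finset J) :
    ex (fun ω => chi U ω * chi V ω) = if U = V then 1 else 0 := coef_chi U V

/-- Resampling a block of coordinates. -/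
lemma ex_sq_diff (f : (I → Bool) → ℝ) (κ₁ κ₂ : I ↪ J) (B : Finset I)
    (h1 : ∀ i, i ∉ B → κ₁ i = κ₂ i) (h2 : ∀ i j, κ₁ i = κ₂ j → i = j ∧ i ∉ B) :
    ex (fun ω : J → Bool => (f (fun i => ω (κ₁ i)) - f (fun i => ω (κ₂ i))) ^ 2) ≤
      2 * ∑ i ∈ B, ∑ S ∈ (Finset.univ : Finset (Finset I)).filter (fun S => i ∈ S),
        coef f S ^ 2 := by
  have hexp : ∀ (κ : I ↪ J) (ω : J → Bool), f (fun i => ω (κ i)) =
      ∑ S : Finset I, coef f S * chi (S.map κ) ω := by
    intro κ ω
    rw [inversion f]
    simp_rw [chi_comp]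
  have hsq : ∀ κ : I ↪ J, ex (fun ω : J → Bool => f (fun i => ω (κ i)) ^ 2) =
      ∑ S : Finset I, coef f S ^ 2 := by
    intro κ
    rw [ex_comp κ (fun x => f x ^ 2), parseval_sq]
    rfl
  have hmap : ∀ S T : Finset I, S.map κ₁ = T.map κ₂ ↔ (T = S ∧ Disjoint S B) := by
    intro S T
    constructor
    · intro h
      have hST : ∀ i ∈ S, i ∈ T ∧ i ∉ B := by
        intro i hi
        have : κ₁ i ∈ T.map κ₂ := by rw [← h]; exact Finset.mem_map_of_mem _ hi
        obtain ⟨j, hj, hj'⟩ := Finset.mem_map.1 this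
        obtain ⟨h3, h4⟩ := h2 i j hj'.symm
        exact ⟨h3 ▸ hj, h4⟩
      have hTS : ∀ j ∈ T, j ∈ S := by
        intro j hj
        have : κ₂ j ∈ S.map κ₁ := by rw [h]; exact Finset.mem_map_of_mem _ hj
        obtain ⟨i, hi, hi'⟩ := Finset.mem_map.1 this
        obtain ⟨h3, h4⟩ := h2 i j hi'
        exact h3 ▸ hi
      refine ⟨Finset.Subset.antisymm hTS (fun i hi => (hST i hi).1), ?_⟩
      rw [Finset.disjoint_left]
      exact fun i hi => (hST i hi).2
    · rintro ⟨rfl, hd⟩
      rw [Finset.disjoint_left] at hd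
      ext a
      simp only [Finset.mem_map]
      constructor
      · rintro ⟨i, hi, rfl⟩
        exact ⟨i, hi, (h1 i (hd hi)).symm⟩
      · rintro ⟨i, hi, rfl⟩
        exact ⟨i, hi, h1 i (hd hi)⟩
  have hcross : ex (fun ω : J → Bool => f (fun i => ω (κ₁ i)) * f (fun i => ω (κ₂ i))) =
      ∑ S : Finset I, if Disjoint S B then coef f S ^ 2 else 0 := by
    have e1 : (fun ω : J → Bool => f (fun i => ω (κ₁ i)) * f (fun i => ω (κ₂ i))) =
        fun ω => ∑ S : Finset I, ∑ T : Finset I, (coef f S * coef f T) *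
          (chi (S.map κ₁) ω * chi (T.map κ₂) ω) := by
      funext ω
      rw [hexp κ₁ ω, hexp κ₂ ω, Finset.sum_mul_sum]
      refine Finset.sum_congr rfl fun S _ => Finset.sum_congr rfl fun T _ => ?_
      ring
    rw [e1, ex_sum]
    refine Finset.sum_congr rfl fun S _ => ?_
    rw [ex_sum]
    simp_rw [ex_const_mul, ex_chi_mul_chi, hmap]
    by_cases hd : Disjoint S B
    · simp only [hd, and_true, if_true, mul_ite, mul_one, mul_zero, Finset.sum_ite_eq',
        Finset.mem_univ]
      ring
    · simp [hd]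
  have e2 : (fun ω : J → Bool => (f (fun i => ω (κ₁ i)) - f (fun i => ω (κ₂ i))) ^ 2) =
      fun ω => (f (fun i => ω (κ₁ i)) ^ 2 + f (fun i => ω (κ₂ i)) ^ 2) -
        2 * (f (fun i => ω (κ₁ i)) * f (fun i => ω (κ₂ i))) := by
    funext ω; ring
  rw [e2, ex_sub, ex_add, ex_const_mul, hsq, hsq, hcross]
  have h3 : ∑ S : Finset I, coef f S ^ 2 - ∑ S : Finset I, (if Disjoint S B then coef f S ^ 2 else 0)
      ≤ ∑ i ∈ B, ∑ S ∈ (Finset.univ : Finset (Finset I)).filter (fun S => i ∈ S),
        coef f S ^ 2 := by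
    rw [← Finset.sum_sub_distrib]
    simp_rw [Finset.sum_filter]
    rw [Finset.sum_comm]
    refine Finset.sum_le_sum fun S _ => ?_
    by_cases hd : Disjoint S B
    · rw [if_pos hd, sub_self]
      exact Finset.sum_nonneg fun i _ => by split_ifs <;> positivity
    · rw [if_neg hd, sub_zero]
      rw [Finset.not_disjoint_iff] at hd
      obtain ⟨i, hi, hi'⟩ := hd
      have := Finset.single_le_sum (f := fun i => if i ∈ S then coef f S ^ 2 else 0)
        (fun i _ => by split_ifs <;> positivity) hi'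
      simpa [hi] using this
  linarith

/-- The total influence is at most the degree. -/
lemma sum_inf_le {f : (I → Bool) → ℝ} (hf : ∀ x, |f x| ≤ 1) {d : ℕ}
    (hdeg : ∀ S : Finset I, d < S.card → coef f S = 0) :
    ∑ i, ∑ S ∈ (Finset.univ : Finset (Finset I)).filter (fun S => i ∈ S), coef f S ^ 2 ≤ d := by
  simp_rw [Finset.sum_filter]
  rw [Finset.sum_comm]
  calc ∑ S : Finset I, ∑ i : I, (if i ∈ S then coef f S ^ 2 else 0)
      ≤ ∑ S : Finset I, (d : ℝ) * coef f S ^ 2 := by
        refine Finset.sum_le_sum fun S _ => ?_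
        rw [Finset.sum_ite_mem, Finset.univ_inter, Finset.sum_const, nsmul_eq_mul]
        by_cases h : d < S.card
        · rw [hdeg S h]; simp
        · push Not at h
          have : (S.card : ℝ) ≤ d := by exact_mod_cast h
          nlinarith [sq_nonneg (coef f S)]
    _ = d * ∑ S : Finset I, coef f S ^ 2 := by rw [Finset.mul_sum]
    _ ≤ d * 1 := by
        refine mul_le_mul_of_nonneg_left ?_ (Nat.cast_nonneg _)
        simpa using sum_coef_sq_le hf (Finset.univ : Finset (Finset I))
    _ = d := mul_one _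

/-- Balanced partition of small weights. -/
lemma exists_partition (w : I → ℝ) (hw : ∀ i, 0 ≤ w i) {θ W : ℝ} (hθ0 : 0 ≤ θ)
    (hθ : ∀ i, w i ≤ θ) (hW : ∑ i, w i ≤ W) (N : ℕ) [NeZero N] :
    ∃ h : I → Fin N, ∀ k, ∑ i ∈ Finset.univ.filter (fun i => h i = k), w i ≤ W / N + θ := by
  have hN : (0 : ℝ) < N := by exact_mod_cast Nat.pos_of_ne_zero (NeZero.ne N)
  have hW0 : 0 ≤ W := (Finset.sum_nonneg fun i _ => hw i).trans hW
  have key : ∀ A : Finset I, ∃ h : I → Fin N,
      ∀ k, ∑ i ∈ A.filter (fun i => h i = k), w i ≤ W / N + θ := by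
    intro A
    induction A using Finset.induction_on with
    | empty => exact ⟨fun _ => 0, fun k => by simp; positivity⟩
    | insert a A ha ih =>
      obtain ⟨h, hh⟩ := ih
      obtain ⟨k0, -, hk0⟩ := Finset.exists_min_image (Finset.univ : Finset (Fin N))
        (fun k => ∑ i ∈ A.filter (fun i => h i = k), w i) ⟨0, Finset.mem_univ _⟩
      refine ⟨Function.update h a k0, fun k => ?_⟩
      have hA : ∀ k, A.filter (fun i => Function.update h a k0 i = k) =
          A.filter (fun i => h i = k) := by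
        intro k
        refine Finset.filter_congr fun i hi => ?_
        have : i ≠ a := by rintro rfl; exact ha hi
        rw [Function.update_of_ne this]
      rw [Finset.filter_insert, Function.update_self, hA]
      split_ifs with hk
      · subst hk
        rw [Finset.sum_insert (by simp [ha])]
        have h1 : (N : ℝ) * ∑ i ∈ A.filter (fun i => h i = k0), w i ≤ W := by
          calc (N : ℝ) * ∑ i ∈ A.filter (fun i => h i = k0), w i
              = ∑ _k : Fin N, ∑ i ∈ A.filter (fun i => h i = k0), w i := by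
                rw [Finset.sum_const, Finset.card_univ, Fintype.card_fin, nsmul_eq_mul]
            _ ≤ ∑ k : Fin N, ∑ i ∈ A.filter (fun i => h i = k), w i :=
                Finset.sum_le_sum fun k _ => hk0 k (Finset.mem_univ _)
            _ = ∑ i ∈ A, w i := Finset.sum_fiberwise A h w
            _ ≤ ∑ i, w i := Finset.sum_le_sum_of_subset_of_nonneg (Finset.subset_univ _)
                (fun i _ _ => hw i)
            _ ≤ W := hW
        have h2 : ∑ i ∈ A.filter (fun i => h i = k0), w i ≤ W / N := by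
          rw [le_div_iff₀ hN]
          linarith
        linarith [hθ a]
      · exact hh k
  obtain ⟨h, hh⟩ := key Finset.univ
  exact ⟨h, hh⟩

end Pool.Agent.Lib_helper30.AA.GAP
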