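import Mathlib

/-!
# Definitions for the theorem on bounded polynomials with a gap
-/

set_option autoImplicit false

namespace Pool.Agent.Lib_helper8.GAP

variable {I : Type} [Fintype I]

/-- The probability of a set of points of the cube `{-1,1}^I` (a bit `b` stands for the sign
`(-1)^b`), uniform measure. -/
noncomputable def pr (A : Set (I → Bool)) : ℝ := (A.ncard : ℝ) / 2 ^ Fintype.card I

/-- The influence `E[((f(x) - f(x with x_j negated)) / 2)^2]`. -/
noncomputable def inf [DecidableEq I] (f : (I → Bool) → ℝ) (j : I) : ℝ :=
  (∑ x : I → Bool, ((f x - f (Function.update x j (!x j))) / 2) ^ 2) / 2 ^ Fintype.card I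

/-- All Fourier coefficients of `f` at sets with more than `d` elements vanish. -/
def DegLE [DecidableEq I] (f : (I → Bool) → ℝ) (d : ℕ) : Prop :=
  ∀ S : Finset I, d < S.card → ∑ x : I → Bool, f x * ∏ i ∈ S, (-1 : ℝ) ^ (x i).toNat = 0

/-- Classical decision trees on inputs `x : I → Bool`. -/
inductive DTree (I : Type) : Type
  | leaf (c : Bool) : DTree I
  | node (i : I) (t₀ t₁ : DTree I) : DTree I

/-- The output of a decision tree. -/
def DTree.eval {I : Type} : DTree I → (I → Bool) → Bool
  | .leaf c, _ => c
  | .node i t₀ t₁, x => if x i then t₁.eval x else t₀.eval x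

/-- The depth, i.e. the number of queries in the worst case. -/
def DTree.depth {I : Type} : DTree I → ℕ
  | .leaf _ => 0
  | .node _ t₀ t₁ => max t₀.depth t₁.depth + 1

end Pool.Agent.Lib_helper8.GAP
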