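import Pool.Agent.Lib_helper8.GAP.Quant

/-!
# Bounded polynomials with a gap: the theorem in terms of `GAP.Defs`
-/

set_option autoImplicit false
set_option linter.unusedSectionVars false

namespace Pool.Agent.Lib_helper30.AA.GAP

open Pool.Agent.Lib_helper8.GAP (DTree pr inf DegLE)
open Pool.Agent.Lib_helper8.QAA (Algorithm)

variable {I : Type} [Fintype I] [DecidableEq I]

open scoped Classical in
lemma pr_eq (A : Set (I → Bool)) : pr A = ex (fun x => if x ∈ A then 1 else 0) := by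
  unfold pr ex
  rw [Finset.sum_boole, Set.ncard_eq_toFinset_card', div_eq_mul_inv, mul_comm]
  congr 3
  ext x
  simp

lemma ex_le_of_pr {A : Set (I → Bool)} {G : (I → Bool) → ℝ} (h1 : ∀ x ∈ A, G x ≤ 1)
    (h0 : ∀ x ∉ A, G x ≤ 0) : ex G ≤ pr A := by
  classical
  rw [pr_eq]
  refine ex_mono fun x => ?_
  by_cases hx : x ∈ A
  · rw [if_pos hx]; exact h1 x hx
  · rw [if_neg hx]; exact h0 x hx

lemma pr_le_of_ex {A : Set (I → Bool)} {G : (I → Bool) → ℝ} (h1 : ∀ x ∈ A, 1 ≤ G x)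
    (h0 : ∀ x ∉ A, 0 ≤ G x) : pr A ≤ ex G := by
  classical
  rw [pr_eq]
  refine ex_mono fun x => ?_
  by_cases hx : x ∈ A
  · rw [if_pos hx]; exact h1 x hx
  · rw [if_neg hx]; exact h0 x hx

lemma pr_mono {A B : Set (I → Bool)} (h : A ⊆ B) : pr A ≤ pr B := by
  unfold pr
  have := Set.ncard_le_ncard h (Set.toFinite B)
  gcongr

lemma pr_union (A B : Set (I → Bool)) : pr (A ∪ B) ≤ pr A + pr B := by
  unfold pr
  rw [← add_div]
  have := Set.ncard_union_le A B
  have h2 : ((A ∪ B).ncard : ℝ) ≤ A.ncard + B.ncard := by exact_mod_cast this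
  gcongr

lemma inf_eq (f : (I → Bool) → ℝ) (j : I) : inf f j = infl f j := by
  rw [infl_eq]
  unfold inf ex
  rw [div_eq_mul_inv, mul_comm]
  rfl

lemma coef_zero {f : (I → Bool) → ℝ} {d : ℕ} (h : DegLE f d) (S : Finset I) (hS : d < S.card) :
    coef f S = 0 := by
  unfold coef
  have h1 := h S hS
  have h2 : ∑ x : I → Bool, f x * chi S x = 0 := h1
  rw [h2, mul_zero]

/-- The influences. -/
theorem final_inf {f : (I → Bool) → ℝ} (hf : ∀ x, |f x| ≤ 1) {d : ℕ} (hd : 1 ≤ d)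
    (hdeg : DegLE f d) {a b v : ℝ} (hab : a < b) (hv : 0 < v)
    (h1 : v ≤ pr {x | b ≤ f x}) (h2 : v ≤ pr {x | f x ≤ a})
    (hgap : pr {x | a < f x ∧ f x < b} ≤ Real.exp (-(64 * d / ((b - a) * v)) ^ 40)) :
    ∃ j, ((b - a) * v / (64 * d)) ^ 40 ≤ inf f j := by
  have h1' : pr {x | b ≤ f x} ≤ ex (thr f b) := by
    refine pr_le_of_ex (fun x hx => ?_) fun x hx => ?_
    · have hx' : b ≤ f x := hx
      unfold thr; rw [if_pos hx']
    · unfold thr; split_ifs <;> norm_num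
  have h2' : pr {x | f x ≤ a} ≤ ex (low f a) := by
    refine pr_le_of_ex (fun x hx => ?_) fun x hx => ?_
    · have hx' : f x ≤ a := hx
      unfold low; rw [if_pos hx']
    · unfold low; split_ifs <;> norm_num
  have h3' : ex (gp f a b) ≤ pr {x | a < f x ∧ f x < b} := by
    refine ex_le_of_pr (fun x hx => ?_) fun x hx => ?_
    · unfold gp; split_ifs <;> norm_num
    · have hx' : ¬ (a < f x ∧ f x < b) := hx
      unfold gp; rw [if_neg hx']
  obtain ⟨j, hj⟩ := gap_main hf hd (coef_zero hdeg) hab hv (h1.trans h1') (h2.trans h2')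
    (h3'.trans hgap)
  exact ⟨j, by rw [inf_eq]; exact hj⟩

/-- The decision tree. -/
theorem final_tree {f : (I → Bool) → ℝ} (hf : ∀ x, |f x| ≤ 1) {d : ℕ} (hd : 1 ≤ d)
    (hdeg : DegLE f d) {a b ε : ℝ} (hab : a < b) (hg2 : b - a ≤ 2) (hε : 0 < ε) (hε1 : ε ≤ 1)
    (hgap : pr {x | a < f x ∧ f x < b} ≤ Real.exp (-(256 * d / ((b - a) * ε)) ^ 41)) :
    ∃ t : DTree I, (t.depth : ℝ) ≤ (256 * d / ((b - a) * ε)) ^ 41 ∧
      pr {x | ¬ (t.eval x = true ↔ b ≤ f x)} ≤ ε := by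
  have h3' : ex (gp f a b) ≤ pr {x | a < f x ∧ f x < b} := by
    refine ex_le_of_pr (fun x hx => ?_) fun x hx => ?_
    · unfold gp; split_ifs <;> norm_num
    · have hx' : ¬ (a < f x ∧ f x < b) := hx
      unfold gp; rw [if_neg hx']
  obtain ⟨t, ht, he⟩ := sim_main hf hd (coef_zero hdeg) hab hg2 hε hε1 (h3'.trans hgap)
  refine ⟨t, ht, le_trans ?_ he⟩
  refine pr_le_of_ex (fun x hx => ?_) fun x hx => abs_nonneg _
  unfold thr
  by_cases h1 : b ≤ f x
  · rw [if_pos h1]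
    have h2 : ¬ t.eval x = true := fun h => hx ⟨fun _ => h1, fun _ => h⟩
    rw [if_neg h2]
    norm_num
  · rw [if_neg h1]
    have h2 : t.eval x = true := by
      by_contra h
      exact hx ⟨fun h' => absurd h' h, fun h' => absurd h' h1⟩
    rw [if_pos h2]
    norm_num

/-- Quantum algorithms. -/
theorem final_quantum {A : Type} [Fintype A] {p : ℕ} (Q : Algorithm I A p) {r : ℕ}
    (hp : 1 ≤ p) (hr : 1 ≤ r) (F : (I → Bool) → Bool) {ε : ℝ} (hε : 0 < ε) (hε1 : ε ≤ 1)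
    (hF : pr {x | ¬ ((F x = true → 2 / 3 ≤ Q.prob r x) ∧ (F x = false → Q.prob r x ≤ 1 / 3))} ≤
      Real.exp (-(3072 * (p * r) / ε) ^ 41)) :
    ∃ t : DTree I, (t.depth : ℝ) ≤ (3072 * (p * r) / ε) ^ 41 ∧ pr {x | t.eval x ≠ F x} ≤ ε := by
  set B : Set (I → Bool) :=
    {x | ¬ ((F x = true → 2 / 3 ≤ Q.prob r x) ∧ (F x = false → Q.prob r x ≤ 1 / 3))} with hB
  have hp' : (1 : ℝ) ≤ p := by exact_mod_cast hp
  have hr' : (1 : ℝ) ≤ r := by exact_mod_cast hr
  have hd : 1 ≤ 2 * (p * r) := by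
    have := Nat.mul_le_mul hp hr
    omega
  have hdeg : DegLE (Q.prob r) (2 * (p * r)) := by
    intro S hS
    have h1 := coef_prob Q r S hS
    unfold coef at h1
    have h2 : ((2 : ℝ) ^ Fintype.card I)⁻¹ ≠ 0 := by positivity
    exact (mul_eq_zero.1 h1).resolve_left h2
  have hconst : (256 * ((2 * (p * r) : ℕ) : ℝ) / ((2 / 3 - 1 / 3) * (ε / 2))) =
      3072 * (p * r) / ε := by
    push_cast
    field_simp
    ring
  have hsub : {x | 1 / 3 < Q.prob r x ∧ Q.prob r x < 2 / 3} ⊆ B := by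
    rintro x ⟨h1, h2⟩ ⟨h3, h4⟩
    cases hx : F x with
    | true => linarith [h3 hx]
    | false => linarith [h4 hx]
  have hgap : pr {x | 1 / 3 < Q.prob r x ∧ Q.prob r x < 2 / 3} ≤
      Real.exp (-(256 * ((2 * (p * r) : ℕ) : ℝ) / ((2 / 3 - 1 / 3) * (ε / 2))) ^ 41) := by
    rw [hconst]
    exact (pr_mono hsub).trans hF
  obtain ⟨t, ht, he⟩ := final_tree (Pool.Agent.Lib_helper8.QAA.abs_prob_le Q r) hd hdeg
    (by norm_num : (1 : ℝ) / 3 < 2 / 3) (by norm_num) (half_pos hε) (by linarith) hgap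
  rw [hconst] at ht
  refine ⟨t, ht, ?_⟩
  have hsub2 : {x | t.eval x ≠ F x} ⊆ {x | ¬ (t.eval x = true ↔ 2 / 3 ≤ Q.prob r x)} ∪ B := by
    intro x hx
    by_cases hxB : x ∈ B
    · exact Or.inr hxB
    · left
      intro hiff
      apply hx
      have hx2 : (F x = true → 2 / 3 ≤ Q.prob r x) ∧ (F x = false → Q.prob r x ≤ 1 / 3) := by
        by_contra h
        exact hxB h
      cases hFx : F x with
      | true => exact hiff.2 (hx2.1 hFx)
      | false =>
        have h5 := hx2.2 hFx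
        cases ht' : t.eval x with
        | false => rfl
        | true =>
          have := hiff.1 ht'
          linarith
  have hY : (3072 : ℝ) ≤ 3072 * (p * r) / ε := by
    rw [le_div_iff₀ hε]
    have : (1 : ℝ) ≤ p * r := by nlinarith
    nlinarith
  have hexp : Real.exp (-(3072 * (p * r) / ε) ^ 41) ≤ ε / 2 := by
    set Y : ℝ := 3072 * (p * r) / ε with hYdef
    have hY1 : 1 ≤ Y := by linarith
    have h1 : Y ≤ Y ^ 41 := by
      calc Y = Y ^ 1 := (pow_one _).symm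
        _ ≤ Y ^ 41 := pow_le_pow_right₀ hY1 (by norm_num)
    have h2 : 2 / ε ≤ Y := by
      rw [hYdef, div_le_div_iff_of_pos_right hε]
      have : (1 : ℝ) ≤ p * r := by nlinarith
      nlinarith
    have h3 : Real.exp (-Y ^ 41) ≤ 1 / (Y ^ 41) := by
      rw [Real.exp_neg, one_div]
      have h4 : Y ^ 41 ≤ Real.exp (Y ^ 41) := by
        have := Real.add_one_le_exp (Y ^ 41)
        linarith
      exact inv_anti₀ (by positivity) h4
    calc Real.exp (-Y ^ 41) ≤ 1 / Y ^ 41 := h3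
      _ ≤ 1 / (2 / ε) := one_div_le_one_div_of_le (by positivity) (h2.trans h1)
      _ = ε / 2 := by field_simp
  calc pr {x | t.eval x ≠ F x}
      ≤ pr ({x | ¬ (t.eval x = true ↔ 2 / 3 ≤ Q.prob r x)} ∪ B) := pr_mono hsub2
    _ ≤ pr {x | ¬ (t.eval x = true ↔ 2 / 3 ≤ Q.prob r x)} + pr B := pr_union _ _
    _ ≤ ε / 2 + ε / 2 := add_le_add he (hF.trans hexp)
    _ = ε := by ring

end Pool.Agent.Lib_helper30.AA.GAP
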