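import Pool.Agent.Lib_helper8.GAP.Num

/-!
# Influential variables of bounded polynomials with a gap
-/

set_option autoImplicit false
set_option linter.unusedSectionVars false
set_option exponentiation.threshold 1000

open Finset

namespace Pool.Agent.Lib_helper30.AA.GAP

variable {I : Type} [Fintype I] [DecidableEq I]

/-- The indicator function of the low part. -/
noncomputable def low (f : (I → Bool) → ℝ) (a : ℝ) (x : I → Bool) : ℝ := if f x ≤ a then 1 else 0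

lemma exists_of_ex_pos {G : (I → Bool) → ℝ} (h : 0 < ex G) : ∃ x, 0 < G x := by
  by_contra hcon
  push Not at hcon
  have := ex_mono hcon
  rw [ex_const] at this
  linarith

theorem gap_main {f : (I → Bool) → ℝ} (hf : ∀ x, |f x| ≤ 1) {d : ℕ} (hd : 1 ≤ d)
    (hdeg : ∀ S : Finset I, d < S.card → coef f S = 0) {a b v : ℝ} (hab : a < b) (hv : 0 < v)
    (h1 : v ≤ ex (thr f b)) (h2 : v ≤ ex (low f a))
    (hgap : ex (gp f a b) ≤ Real.exp (-(64 * d / ((b - a) * v)) ^ 40)) :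
    ∃ i, ((b - a) * v / (64 * d)) ^ 40 ≤ infl f i := by
  have hg : 0 < b - a := by linarith
  have hd' : (1 : ℝ) ≤ d := by exact_mod_cast hd
  have hd0 : (0 : ℝ) < d := by linarith
  -- the trivial bounds
  obtain ⟨x, hx⟩ := exists_of_ex_pos (hv.trans_le h1)
  obtain ⟨y, hy⟩ := exists_of_ex_pos (hv.trans_le h2)
  have hbx : b ≤ f x := by
    by_contra hcon
    unfold thr at hx
    rw [if_neg hcon] at hx
    exact lt_irrefl _ hx
  have hay : f y ≤ a := by
    by_contra hcon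
    unfold low at hy
    rw [if_neg hcon] at hy
    exact lt_irrefl _ hy
  have hg2 : b - a ≤ 2 := by
    have := (abs_le.1 (hf x)).2
    have := (abs_le.1 (hf y)).1
    linarith
  have hsum : ex (thr f b) + ex (low f a) ≤ 1 := by
    rw [← ex_add, ← ex_const (I := I) 1]
    apply ex_mono
    intro z
    unfold thr low
    by_cases h3 : b ≤ f z
    · rw [if_pos h3, if_neg (by linarith)]; norm_num
    · rw [if_neg h3]; split_ifs <;> norm_num
  have hv2 : v ≤ 1 / 2 := by linarith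
  -- the parameters
  set K : ℝ := d / ((b - a) * v) with hK
  have hgv : 0 < (b - a) * v := by positivity
  have hgv1 : (b - a) * v ≤ 1 := by nlinarith
  have hK1 : 1 ≤ K := by
    rw [hK, le_div_iff₀ hgv]
    linarith
  have hK0 : 0 < K := by linarith
  set k : ℕ := ⌈K⌉₊ with hk
  have hKk : K ≤ k := Nat.le_ceil K
  have hk2 : (k : ℝ) ≤ 2 * K := by
    have := Nat.ceil_lt_add_one hK0.le
    rw [← hk] at this
    linarith
  have hk1 : 1 ≤ k := by
    have : (1 : ℝ) ≤ k := by linarith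
    exact_mod_cast this
  have hk0 : (0 : ℝ) < k := by linarith
  have hkr : (1 : ℝ) ≤ k := by linarith
  have hdk : (d : ℝ) ≤ k * ((b - a) * v) := by
    rw [← div_le_iff₀ hgv]
    exact hKk
  have hT1 : (64 * (d : ℝ) / ((b - a) * v)) ^ 40 = 2 ^ 240 * K ^ 40 := by
    have : 64 * (d : ℝ) / ((b - a) * v) = 2 ^ 6 * K := by rw [hK]; ring
    rw [this, mul_pow, ← pow_mul]
  have hT2 : ((b - a) * v / (64 * (d : ℝ))) ^ 40 = 1 / (2 ^ 240 * K ^ 40) := by
    rw [← hT1, ← one_div_pow, one_div_div]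
  rw [hT1] at hgap
  rw [hT2]
  by_contra hcon
  push Not at hcon
  have hkK : ∀ j : ℕ, (k : ℝ) ^ j ≤ 2 ^ j * K ^ j := by
    intro j
    rw [← mul_pow]
    exact pow_le_pow_left₀ hk0.le hk2 j
  have hNK : 2 ^ 177 * (k : ℝ) ^ 39 ≤ 2 ^ 240 * K ^ 40 := by
    calc 2 ^ 177 * (k : ℝ) ^ 39 ≤ 2 ^ 177 * (2 ^ 39 * K ^ 39) :=
          mul_le_mul_of_nonneg_left (hkK 39) (by positivity)
      _ = 2 ^ 216 * K ^ 39 := by rw [← mul_assoc, ← pow_add]
      _ ≤ 2 ^ 240 * K ^ 40 := by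
          apply mul_le_mul
          · exact pow_le_pow_right₀ (by norm_num) (by norm_num)
          · exact pow_le_pow_right₀ hK1 (by norm_num)
          · positivity
          · positivity
  have hNm : (2 ^ 177 * (k : ℝ) ^ 39) * (1024 * k) ≤ 2 ^ 240 * K ^ 40 := by
    calc (2 ^ 177 * (k : ℝ) ^ 39) * (1024 * k) = 2 ^ 187 * (k : ℝ) ^ 40 := by
          have : (1024 : ℝ) = 2 ^ 10 := by norm_num
          rw [this]
          ring
      _ ≤ 2 ^ 187 * (2 ^ 40 * K ^ 40) := mul_le_mul_of_nonneg_left (hkK 40) (by positivity)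
      _ = 2 ^ 227 * K ^ 40 := by rw [← mul_assoc, ← pow_add]
      _ ≤ 2 ^ 240 * K ^ 40 :=
          mul_le_mul_of_nonneg_right (pow_le_pow_right₀ (by norm_num) (by norm_num))
            (by positivity)
  refine gap_abs (N := 2 ^ 177 * k ^ 39) (m := 512 * k) (RR := 2 ^ 175 * (k : ℝ) ^ 37) hf hd hdeg
    hab hg2 hv2 hk1 hdk h1 (by linarith) (by omega) ?_ ?_ ?_ ?_ ?_ ?_
  · push_cast
    ring
  · have h3 : (k : ℝ) ≤ (k : ℝ) ^ 37 := le_self_pow₀ hkr (by norm_num)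
    have h4 : (2 : ℝ) ≤ 2 ^ 175 := le_self_pow₀ (by norm_num) (by norm_num)
    exact mul_le_mul h4 h3 hk0.le (by positivity)
  · push_cast
    ring
  · have h5 : ((2 ^ 177 * k ^ 39 : ℕ) : ℝ) = 2 ^ 177 * (k : ℝ) ^ 39 := by push_cast; ring
    rw [h5]
    have h6 : (1 : ℝ) ≤ 2 ^ 177 * (k : ℝ) ^ 39 :=
      one_le_mul_of_one_le_of_one_le (one_le_pow₀ (by norm_num)) (one_le_pow₀ hkr)
    have h3 : (k : ℝ) ^ 76 ≤ 2 ^ (76 * k) := by
      have h4 : (k : ℝ) ≤ 2 ^ k := by exact_mod_cast (Nat.lt_two_pow_self (n := k)).le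
      calc (k : ℝ) ^ 76 ≤ ((2 : ℝ) ^ k) ^ 76 := pow_le_pow_left₀ hk0.le h4 76
        _ = 2 ^ (76 * k) := by rw [← pow_mul, mul_comm]
    calc 8 * (2 ^ 175 * (k : ℝ) ^ 37) * (2 ^ 177 * (k : ℝ) ^ 39 + 1)
        ≤ 8 * (2 ^ 175 * (k : ℝ) ^ 37) * (2 * (2 ^ 177 * (k : ℝ) ^ 39)) := by
          apply mul_le_mul_of_nonneg_left _ (by positivity)
          linarith
      _ = 2 ^ 356 * (k : ℝ) ^ 76 := by ring
      _ ≤ 2 ^ 356 * 2 ^ (76 * k) := mul_le_mul_of_nonneg_left h3 (by positivity)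
      _ = 2 ^ (356 + 76 * k) := by rw [← pow_add]
      _ ≤ 2 ^ (512 * k) := pow_le_pow_right₀ (by norm_num) (by omega)
  · intro i
    refine (hcon i).le.trans ?_
    have h5 : ((2 ^ 177 * k ^ 39 : ℕ) : ℝ) = 2 ^ 177 * (k : ℝ) ^ 39 := by push_cast; ring
    rw [h5]
    apply one_div_le_one_div_of_le (by positivity) hNK
  · have he : ∀ j : ℕ, (2 : ℝ) ^ j ≤ Real.exp j := by
      intro j
      have h3 : (2 : ℝ) ≤ Real.exp 1 := by
        have := Real.add_one_le_exp (1 : ℝ)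
        linarith
      calc (2 : ℝ) ^ j ≤ (Real.exp 1) ^ j := pow_le_pow_left₀ (by norm_num) h3 j
        _ = Real.exp j := by rw [← Real.exp_nat_mul, mul_one]
    have hR0 : (0 : ℝ) < 16 * (2 ^ 175 * (k : ℝ) ^ 37) := by positivity
    rw [le_div_iff₀ hR0]
    have h7 : 16 * (2 ^ 175 * (k : ℝ) ^ 37) ≤ Real.exp (16 * (2 ^ 175 * (k : ℝ) ^ 37)) := by
      have := Real.add_one_le_exp (16 * (2 ^ 175 * (k : ℝ) ^ 37))
      linarith
    have hδ0 : 0 ≤ ex (gp f a b) := ex_nonneg (gp_nonneg f a b)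
    have h8 := he (2 ^ 177 * k ^ 39 * (512 * k))
    calc 2 ^ (2 ^ 177 * k ^ 39 * (512 * k)) * ex (gp f a b) * (16 * (2 ^ 175 * (k : ℝ) ^ 37))
        ≤ Real.exp ((2 ^ 177 * k ^ 39 * (512 * k) : ℕ) : ℝ) * Real.exp (-(2 ^ 240 * K ^ 40)) *
          Real.exp (16 * (2 ^ 175 * (k : ℝ) ^ 37)) := by
          apply mul_le_mul (mul_le_mul h8 hgap hδ0 (Real.exp_pos _).le) h7 hR0.le (by positivity)
      _ = Real.exp (((2 ^ 177 * k ^ 39 * (512 * k) : ℕ) : ℝ) + -(2 ^ 240 * K ^ 40) +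
          16 * (2 ^ 175 * (k : ℝ) ^ 37)) := by rw [← Real.exp_add, ← Real.exp_add]
      _ ≤ Real.exp 0 := by
          apply Real.exp_le_exp.2
          have h9 : ((2 ^ 177 * k ^ 39 * (512 * k) : ℕ) : ℝ) =
              (2 ^ 177 * (k : ℝ) ^ 39) * (512 * k) := by push_cast; ring
          have h10 : 16 * (2 ^ 175 * (k : ℝ) ^ 37) ≤ (2 ^ 177 * (k : ℝ) ^ 39) * (512 * k) := by
            have h11 : (k : ℝ) ^ 37 ≤ (k : ℝ) ^ 40 := pow_le_pow_right₀ hkr (by norm_num)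
            calc 16 * (2 ^ 175 * (k : ℝ) ^ 37) = 2 ^ 179 * (k : ℝ) ^ 37 := by ring
              _ ≤ 2 ^ 186 * (k : ℝ) ^ 40 := by
                  apply mul_le_mul _ h11 (by positivity) (by positivity)
                  exact pow_le_pow_right₀ (by norm_num) (by norm_num)
              _ = (2 ^ 177 * (k : ℝ) ^ 39) * (512 * k) := by ring
          have h12 : (2 ^ 177 * (k : ℝ) ^ 39) * (512 * k) + (2 ^ 177 * (k : ℝ) ^ 39) * (512 * k) =
              (2 ^ 177 * (k : ℝ) ^ 39) * (1024 * k) := by ring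
          rw [h9]
          linarith
      _ = 1 := Real.exp_zero

end Pool.Agent.Lib_helper30.AA.GAP
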