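import Pool.Agent.Lib_helper8.GAP.Model

/-!
# The master inequality
-/

set_option autoImplicit false
set_option linter.unusedSectionVars false

open Finset

namespace Pool.Agent.Lib_helper30.AA.GAP

variable {I : Type} [Fintype I] [DecidableEq I] {N m : ℕ}

/-- The threshold function. -/
noncomputable def thr (f : (I → Bool) → ℝ) (b : ℝ) (x : I → Bool) : ℝ := if b ≤ f x then 1 else 0

/-- The indicator function of the gap. -/
noncomputable def gp (f : (I → Bool) → ℝ) (a b : ℝ) (x : I → Bool) : ℝ :=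
  if a < f x ∧ f x < b then 1 else 0

/-- The influence in Fourier terms. -/
noncomputable def infl (f : (I → Bool) → ℝ) (i : I) : ℝ :=
  ∑ S ∈ (Finset.univ : Finset (Finset I)).filter (fun S => i ∈ S), coef f S ^ 2

lemma infl_nonneg (f : (I → Bool) → ℝ) (i : I) : 0 ≤ infl f i :=
  Finset.sum_nonneg fun _ _ => sq_nonneg _

lemma thr_zero_or_one (f : (I → Bool) → ℝ) (b : ℝ) (x : I → Bool) :
    thr f b x = 0 ∨ thr f b x = 1 := by
  unfold thr
  split_ifs
  · right; rfl
  · left; rfl

lemma gp_nonneg (f : (I → Bool) → ℝ) (a b : ℝ) (x : I → Bool) : 0 ≤ gp f a b x := by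
  unfold gp
  split_ifs <;> norm_num

theorem master {f : (I → Bool) → ℝ} (hf : ∀ x, |f x| ≤ 1) {d : ℕ}
    (hdeg : ∀ S : Finset I, d < S.card → coef f S = 0) {a b : ℝ} (hab : a < b)
    (h : I → Fin N) {s0 : ℕ} (hs : 8 * ((d * m : ℕ) : ℝ) ^ 2 < (b - a) * (s0 + 1))
    {ι : Fin N → ℝ}
    (hι : ∀ k, 2 * ex (gp f a b) + 2 / (b - a) ^ 2 *
      ∑ i ∈ Finset.univ.filter (fun i => h i = k), infl f i ≤ ι k) :
    ex (thr f b) - ex (thr f b) ^ 2 - N * ((2 : ℝ) ^ m)⁻¹ - 2 ^ (N * m) * ex (gp f a b) ≤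
      ((s0 * s0 * (s0 * s0 + 1) : ℕ) : ℝ) / 2 *
        √(m * ∑ k, (ι k ^ 2 + (N + 1) * ((2 : ℝ) ^ m)⁻¹ * ι k)) := by
  set T := thr f b with hTdef
  have hT := thr_zero_or_one f b
  set V : ((Fin m → Bool) × I → Bool) → ℝ := fun ω =>
    ex (fun s => T (X h ω s)) * (1 - ex (fun s => T (X h ω s))) with hV
  set S : ((Fin m → Bool) × I → Bool) → ℝ := fun ω => ∑ kl : Fin N × Fin m,
    (ex (fun s => |T (X h ω s) - T (X h ω (flip kl s))|)) ^ 2 with hS
  set bad : ((Fin m → Bool) × I → Bool) → ℝ := fun ω =>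
    ∑ s : Fin N × Fin m → Bool, gp f a b (X h ω s) with hbad
  have hS0 : ∀ ω, 0 ≤ S ω := fun ω => Finset.sum_nonneg fun _ _ => sq_nonneg _
  have hbad0 : ∀ ω, 0 ≤ bad ω := fun ω => Finset.sum_nonneg fun _ _ => gp_nonneg _ _ _ _
  have hpt : ∀ ω, V ω ≤ ((s0 * s0 * (s0 * s0 + 1) : ℕ) : ℝ) / 2 * √(S ω) + bad ω := by
    intro ω
    have hsq : 0 ≤ √(S ω) := Real.sqrt_nonneg _
    by_cases hg : ∃ s : Fin N × Fin m → Bool, a < f (X h ω s) ∧ f (X h ω s) < b
    · obtain ⟨s, hs⟩ := hg
      have h1 : 1 ≤ bad ω := by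
        have := Finset.single_le_sum (f := fun s => gp f a b (X h ω s))
          (fun s _ => gp_nonneg _ _ _ _) (Finset.mem_univ s)
        have h2 : gp f a b (X h ω s) = 1 := by unfold gp; rw [if_pos hs]
        simp only [h2] at this
        exact this
      have h2 : V ω ≤ 1 := by
        simp only [hV]
        nlinarith [sq_nonneg (ex (fun s : Fin N × Fin m → Bool => T (X h ω s)) - 1 / 2)]
      have h3 : 0 ≤ ((s0 * s0 * (s0 * s0 + 1) : ℕ) : ℝ) / 2 * √(S ω) := by positivity
      linarith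
    · push Not at hg
      have h1 := var_le_gap (f := fun s : Fin N × Fin m → Bool => f (X h ω s))
        (fun s => hf _) (d := d * m) (fun S hS => coef_model hdeg h ω S hS) (κ := b - a)
        (by linarith) (T := fun s => T (X h ω s)) (fun s => hT _) (by
          intro s s' hne
          by_cases h1 : b ≤ f (X h ω s) <;> by_cases h2 : b ≤ f (X h ω s')
          · exfalso; apply hne
            simp only [hTdef, thr, if_pos h1, if_pos h2]
          · have h3 : f (X h ω s') ≤ a := by
              by_contra hcon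
              exact h2 (hg s' (not_le.1 hcon))
            calc b - a ≤ f (X h ω s) - f (X h ω s') := by linarith
              _ ≤ |f (X h ω s) - f (X h ω s')| := le_abs_self _
          · have h3 : f (X h ω s) ≤ a := by
              by_contra hcon
              exact h1 (hg s (not_le.1 hcon))
            calc b - a ≤ -(f (X h ω s) - f (X h ω s')) := by linarith
              _ ≤ |f (X h ω s) - f (X h ω s')| := neg_le_abs _
          · exfalso; apply hne
            simp only [hTdef, thr, if_neg h1, if_neg h2]) hs hsq (by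
          intro kl
          apply Real.le_sqrt_of_sq_le
          have := Finset.single_le_sum (f := fun kl : Fin N × Fin m =>
            (ex (fun s => |T (X h ω s) - T (X h ω (flip kl s))|)) ^ 2)
            (fun _ _ => sq_nonneg _) (Finset.mem_univ kl)
          exact this)
      have h2 := hbad0 ω
      simp only [hV]
      linarith
  have h1 := ex_mono hpt
  rw [ex_add, ex_const_mul] at h1
  have h2 := var_model (m := m) h hT
  have h3 : ex bad = 2 ^ (N * m) * ex (gp f a b) := by
    simp only [hbad]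
    rw [ex_sum]
    simp_rw [ex_X]
    rw [Finset.sum_const, Finset.card_univ, nsmul_eq_mul]
    congr 1
    simp
  have h4 : ex (fun ω => √(S ω)) ≤ √(m * ∑ k, (ι k ^ 2 + (N + 1) * ((2 : ℝ) ^ m)⁻¹ * ι k)) := by
    apply Real.le_sqrt_of_sq_le
    refine (sq_ex_le _).trans ?_
    have e1 : (fun ω => √(S ω) ^ 2) = S := by
      funext ω
      exact Real.sq_sqrt (hS0 ω)
    rw [e1]
    simp only [hS]
    rw [ex_sum, Fintype.sum_prod_type, Finset.mul_sum]
    refine Finset.sum_le_sum fun k _ => ?_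
    calc ∑ l : Fin m, ex (fun ω : (Fin m → Bool) × I → Bool =>
          (ex (fun s => |T (X h ω s) - T (X h ω (flip (k, l) s))|)) ^ 2)
        ≤ ∑ _l : Fin m, (ι k ^ 2 + (N + 1) * ((2 : ℝ) ^ m)⁻¹ * ι k) := by
          refine Finset.sum_le_sum fun l _ => ?_
          apply inf_model h hT k l
          intro s
          exact (block_model hab h k l s).trans (hι k)
      _ = m * (ι k ^ 2 + (N + 1) * ((2 : ℝ) ^ m)⁻¹ * ι k) := by
          rw [Finset.sum_const, Finset.card_univ, Fintype.card_fin, nsmul_eq_mul]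
  have h5 : 0 ≤ ((s0 * s0 * (s0 * s0 + 1) : ℕ) : ℝ) / 2 := by positivity
  have h6 := mul_le_mul_of_nonneg_left h4 h5
  have h7 : ex V = ex (fun ω : (Fin m → Bool) × I → Bool =>
        ex (fun s => T (X h ω s)) * (1 - ex (fun s => T (X h ω s)))) := rfl
  rw [← h7] at h2
  linarith

end Pool.Agent.Lib_helper30.AA.GAP
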