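import Pool.Agent.Lib_helper8.GAP.Cube

/-!
# Random low dimensional models of a function on the cube
-/

set_option autoImplicit false
set_option linter.unusedSectionVars false

open Finset

namespace Pool.Agent.Lib_helper30.AA.GAP

variable {I : Type} [Fintype I] [DecidableEq I] {N m : ℕ}

/-- The letter chosen for the block `k`. -/
def lett (s : Fin N × Fin m → Bool) (k : Fin N) : Fin m → Bool := fun l => s (k, l)

/-- The random point attached to `s`: the coordinates of the block `k` are taken from the
row of the letter `lett s k`. -/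
def X (h : I → Fin N) (ω : (Fin m → Bool) × I → Bool) (s : Fin N × Fin m → Bool) : I → Bool :=
  fun i => ω (lett s (h i), i)

/-- The coordinates read by `X h ω s`. -/
def emb (h : I → Fin N) (s : Fin N × Fin m → Bool) : I ↪ (Fin m → Bool) × I :=
  ⟨fun i => (lett s (h i), i), fun _ _ hij => (Prod.mk.inj hij).2⟩

lemma X_eq (h : I → Fin N) (ω : (Fin m → Bool) × I → Bool) (s : Fin N × Fin m → Bool) :
    X h ω s = fun i => ω (emb h s i) := rfl

/-- The set of coordinates read. -/
def reads (h : I → Fin N) (s : Fin N × Fin m → Bool) : Finset ((Fin m → Bool) × I) :=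
  Finset.univ.image (fun i => (lett s (h i), i))

lemma mem_reads {h : I → Fin N} {s : Fin N × Fin m → Bool} {c : Fin m → Bool} {i : I} :
    (c, i) ∈ reads h s ↔ lett s (h i) = c := by
  unfold reads
  rw [Finset.mem_image]
  constructor
  · rintro ⟨j, -, hj⟩
    obtain ⟨h1, h2⟩ := Prod.mk.inj hj
    rw [← h2]; exact h1
  · intro hc
    exact ⟨i, Finset.mem_univ _, by rw [hc]⟩

lemma X_congr {h : I → Fin N} {ω ω' : (Fin m → Bool) × I → Bool} {s : Fin N × Fin m → Bool}
    (hω : ∀ i : I, ω (lett s (h i), i) = ω' (lett s (h i), i)) : X h ω s = X h ω' s :=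
  funext hω

lemma coef_model {f : (I → Bool) → ℝ} {d : ℕ} (hdeg : ∀ S : Finset I, d < S.card → coef f S = 0)
    (h : I → Fin N) (ω : (Fin m → Bool) × I → Bool) (S : Finset (Fin N × Fin m))
    (hS : d * m < S.card) : coef (fun s => f (X h ω s)) S = 0 := by
  have h1 : (fun s : Fin N × Fin m → Bool => f (X h ω s)) =
      fun s => ∑ W : Finset I, coef f W * chi W (X h ω s) := by
    funext s
    exact inversion f _
  rw [h1, coef_sum]
  refine Finset.sum_eq_zero fun W _ => ?_
  rw [coef_const_mul]
  by_cases hW : d < W.card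
  · rw [hdeg W hW, zero_mul]
  · push Not at hW
    have h2 : coef (fun s : Fin N × Fin m → Bool => chi W (X h ω s)) S = 0 := by
      apply coef_eq_zero_of_dep (J := (W.image h) ×ˢ (Finset.univ : Finset (Fin m)))
      · intro s s' hss
        unfold chi
        refine Finset.prod_congr rfl fun i hi => ?_
        have : lett s (h i) = lett s' (h i) := by
          funext l
          exact hss (h i, l) (by
            rw [Finset.mem_product]
            exact ⟨Finset.mem_image_of_mem _ hi, Finset.mem_univ _⟩)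
        unfold X
        rw [this]
      · intro hsub
        have h3 := Finset.card_le_card hsub
        rw [Finset.card_product, Finset.card_univ, Fintype.card_fin] at h3
        have h4 : (W.image h).card * m ≤ d * m :=
          Nat.mul_le_mul_right _ (Finset.card_image_le.trans hW)
        omega
    rw [h2, mul_zero]

lemma ex_X (h : I → Fin N) (s : Fin N × Fin m → Bool) (G : (I → Bool) → ℝ) :
    ex (fun ω => G (X h ω s)) = ex G := ex_comp (emb h s) G

lemma ex_mul_ex {J K : Type} [Fintype J] [DecidableEq J] [Fintype K] [DecidableEq K]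
    (G : (J → Bool) → ℝ) (H : (K → Bool) → ℝ) :
    ex G * ex H = ex (fun x => ex (fun y => G x * H y)) := by
  have h1 : ∀ x, ex (fun y => G x * H y) = G x * ex H := fun x => ex_const_mul _ _
  simp_rw [h1]
  rw [ex_mul_const]

lemma flip_lett_ne (s : Fin N × Fin m → Bool) (k : Fin N) (l : Fin m) :
    lett (flip (k, l) s) k ≠ lett s k := by
  intro hcon
  have := congrFun hcon l
  unfold lett flip at this
  rw [Function.update_self] at this
  cases hs : s (k, l) <;> rw [hs] at this <;> simp at this

lemma flip_lett_of_ne (s : Fin N × Fin m → Bool) {k j : Fin N} (l : Fin m) (hj : j ≠ k) :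
    lett (flip (k, l) s) j = lett s j := by
  funext l'
  unfold lett flip
  rw [Function.update_of_ne]
  intro hcon
  exact hj (Prod.mk.inj hcon).1

/-- Two letters flipped at the same place are equal only if the letters are. -/
lemma flip_lett_inj (s s' : Fin N × Fin m → Bool) (k : Fin N) (l : Fin m)
    (hss : lett (flip (k, l) s) k = lett (flip (k, l) s') k) : lett s k = lett s' k := by
  funext l'
  have := congrFun hss l'
  unfold lett flip at this
  unfold lett
  by_cases hl : l' = l
  · subst hl
    rw [Function.update_self, Function.update_self] at this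
    simpa using this
  · have hne : (k, l') ≠ (k, l) := fun hcon => hl (Prod.mk.inj hcon).2
    rw [Function.update_of_ne hne, Function.update_of_ne hne] at this
    exact this

lemma flip_lett_swap (s s' : Fin N × Fin m → Bool) (k : Fin N) (l : Fin m)
    (hss : lett s k = lett (flip (k, l) s') k) : lett (flip (k, l) s) k = lett s' k := by
  apply flip_lett_inj (l := l)
  rw [flip_flip]
  exact hss

/-- The probability that a given letter is chosen. -/
lemma ex_lett_eq (k : Fin N) (c : Fin m → Bool) :
    ex (fun s : Fin N × Fin m → Bool => if c = lett s k then (1 : ℝ) else 0) = ((2 : ℝ) ^ m)⁻¹ := by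
  have h1 := ex_comp (J := Fin N × Fin m)
    (⟨fun l => (k, l), fun _ _ hl => (Prod.mk.inj hl).2⟩ : Fin m ↪ Fin N × Fin m)
    (fun x : Fin m → Bool => if c = x then (1 : ℝ) else 0)
  have h2 : ex (fun x : Fin m → Bool => if c = x then (1 : ℝ) else 0) = ((2 : ℝ) ^ m)⁻¹ := by
    unfold ex
    simp
  rw [h2] at h1
  exact h1

/-- The event that two independent choices share a letter. -/
noncomputable def co1 (s s' : Fin N × Fin m → Bool) : ℝ :=
  ∑ k : Fin N, if lett s k = lett s' k then (1 : ℝ) else 0

lemma co1_nonneg (s s' : Fin N × Fin m → Bool) : 0 ≤ co1 s s' :=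
  Finset.sum_nonneg fun k _ => by split_ifs <;> norm_num

lemma one_le_co1 {s s' : Fin N × Fin m → Bool} {k : Fin N} (hk : lett s k = lett s' k) :
    1 ≤ co1 s s' := by
  have := Finset.single_le_sum (f := fun k => if lett s k = lett s' k then (1 : ℝ) else 0)
    (fun k _ => by split_ifs <;> norm_num) (Finset.mem_univ k)
  rw [if_pos hk] at this
  exact this

lemma ex_co1 (s : Fin N × Fin m → Bool) : ex (fun s' => co1 s s') = N * ((2 : ℝ) ^ m)⁻¹ := by
  unfold co1
  rw [ex_sum]
  simp_rw [ex_lett_eq]
  simp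

lemma ex_X_mul (h : I → Fin N) {s s' : Fin N × Fin m → Bool} (hss : ∀ k, lett s k ≠ lett s' k)
    (G H : (I → Bool) → ℝ) :
    ex (fun ω => G (X h ω s) * H (X h ω s')) = ex G * ex H := by
  rw [ex_mul_of_disj (P := fun ω => G (X h ω s)) (Q := fun ω => H (X h ω s')) (reads h s),
    ex_X, ex_X]
  · intro ω ω' hω
    rw [X_congr (fun i => hω _ (mem_reads.2 rfl))]
  · intro ω ω' hω
    rw [X_congr (s := s') (fun i => hω _ (fun hcon => hss _ (mem_reads.1 hcon)))]

/-- First estimate: the variance of a random model. -/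
lemma var_model (h : I → Fin N) {T : (I → Bool) → ℝ} (hT : ∀ x, T x = 0 ∨ T x = 1) :
    ex T - ex T ^ 2 - N * ((2 : ℝ) ^ m)⁻¹ ≤
      ex (fun ω : (Fin m → Bool) × I → Bool =>
        ex (fun s => T (X h ω s)) * (1 - ex (fun s => T (X h ω s)))) := by
  have hT0 : ∀ x, 0 ≤ T x := fun x => by rcases hT x with h | h <;> rw [h] <;> norm_num
  have hT1 : ∀ x, T x ≤ 1 := fun x => by rcases hT x with h | h <;> rw [h] <;> norm_num
  have e1 : (fun ω : (Fin m → Bool) × I → Bool =>
      ex (fun s => T (X h ω s)) * (1 - ex (fun s => T (X h ω s)))) =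
      fun ω => ex (fun s => T (X h ω s)) -
        ex (fun s => ex (fun s' => T (X h ω s) * T (X h ω s'))) := by
    funext ω
    rw [← ex_mul_ex]
    ring
  have e2 : ex (fun ω : (Fin m → Bool) × I → Bool => ex (fun s => T (X h ω s))) = ex T := by
    rw [ex_comm]
    simp_rw [ex_X]
    rw [ex_const]
  have e3 : ex (fun ω : (Fin m → Bool) × I → Bool =>
      ex (fun s => ex (fun s' => T (X h ω s) * T (X h ω s')))) ≤
      ex T ^ 2 + N * ((2 : ℝ) ^ m)⁻¹ := by
    rw [ex_comm]
    have h1 : ∀ s : Fin N × Fin m → Bool,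
        ex (fun ω : (Fin m → Bool) × I → Bool => ex (fun s' => T (X h ω s) * T (X h ω s'))) ≤
        ex T ^ 2 + N * ((2 : ℝ) ^ m)⁻¹ := by
      intro s
      rw [ex_comm, ← ex_co1 s, ← ex_const (I := Fin N × Fin m) (ex T ^ 2), ← ex_add]
      apply ex_mono
      intro s'
      by_cases hss : ∀ k, lett s k ≠ lett s' k
      · rw [ex_X_mul h hss]
        have := co1_nonneg s s'
        rw [sq]
        linarith
      · push Not at hss
        obtain ⟨k, hk⟩ := hss
        have h2 := one_le_co1 hk
        have h3 : ex (fun ω : (Fin m → Bool) × I → Bool => T (X h ω s) * T (X h ω s')) ≤ 1 := by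
          rw [← ex_const (I := (Fin m → Bool) × I) 1]
          apply ex_mono
          intro ω
          exact mul_le_one₀ (hT1 _) (hT0 _) (hT1 _)
        have := sq_nonneg (ex T)
        linarith
    have := ex_mono h1
    rwa [ex_const] at this
  rw [e1, ex_sub, e2]
  linarith

/-- The same for the flipped models. -/
noncomputable def co2 (k : Fin N) (l : Fin m) (s s' : Fin N × Fin m → Bool) : ℝ :=
  co1 s s' + if lett (flip (k, l) s) k = lett s' k then (1 : ℝ) else 0

lemma ex_co2 (k : Fin N) (l : Fin m) (s : Fin N × Fin m → Bool) :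
    ex (fun s' => co2 k l s s') = (N + 1) * ((2 : ℝ) ^ m)⁻¹ := by
  unfold co2
  rw [ex_add, ex_co1, ex_lett_eq]
  ring

lemma co2_nonneg (k : Fin N) (l : Fin m) (s s' : Fin N × Fin m → Bool) : 0 ≤ co2 k l s s' := by
  unfold co2
  have := co1_nonneg s s'
  split_ifs <;> linarith

lemma ex_flip_mul (h : I → Fin N) (k : Fin N) (l : Fin m) {s s' : Fin N × Fin m → Bool}
    (hss : ∀ j, lett s j ≠ lett s' j) (hss' : lett (flip (k, l) s) k ≠ lett s' k)
    (G : (I → Bool) → (I → Bool) → ℝ) :
    ex (fun ω => G (X h ω s) (X h ω (flip (k, l) s)) * G (X h ω s') (X h ω (flip (k, l) s'))) =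
      ex (fun ω => G (X h ω s) (X h ω (flip (k, l) s))) *
      ex (fun ω => G (X h ω s') (X h ω (flip (k, l) s'))) := by
  refine ex_mul_of_disj (P := fun ω => G (X h ω s) (X h ω (flip (k, l) s)))
    (Q := fun ω => G (X h ω s') (X h ω (flip (k, l) s')))
    (reads h s ∪ reads h (flip (k, l) s)) ?_ ?_
  · intro ω ω' hω
    rw [X_congr (s := s) (fun i => hω _ (Finset.mem_union_left _ (mem_reads.2 rfl))),
      X_congr (s := flip (k, l) s) (fun i => hω _ (Finset.mem_union_right _ (mem_reads.2 rfl)))]
  · intro ω ω' hω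
    have a1 : ∀ j, lett (flip (k, l) s) j ≠ lett s' j := by
      intro j
      by_cases hj : j = k
      · subst hj; exact hss'
      · rw [flip_lett_of_ne s l hj]; exact hss j
    have a2 : ∀ j, lett s j ≠ lett (flip (k, l) s') j := by
      intro j
      by_cases hj : j = k
      · subst hj
        intro hcon
        exact hss' (flip_lett_swap s s' j l hcon)
      · rw [flip_lett_of_ne s' l hj]; exact hss j
    have a3 : ∀ j, lett (flip (k, l) s) j ≠ lett (flip (k, l) s') j := by
      intro j
      by_cases hj : j = k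
      · subst hj
        intro hcon
        exact hss j (flip_lett_inj s s' j l hcon)
      · rw [flip_lett_of_ne s' l hj]; exact a1 j
    rw [X_congr (s := s') (fun i => hω _ (fun hcon => by
        rcases Finset.mem_union.1 hcon with hc | hc
        · exact hss _ (mem_reads.1 hc)
        · exact a1 _ (mem_reads.1 hc))),
      X_congr (s := flip (k, l) s') (fun i => hω _ (fun hcon => by
        rcases Finset.mem_union.1 hcon with hc | hc
        · exact a2 _ (mem_reads.1 hc)
        · exact a3 _ (mem_reads.1 hc)))]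

/-- Second estimate: the influences of a random model. -/
lemma inf_model (h : I → Fin N) {T : (I → Bool) → ℝ} (hT : ∀ x, T x = 0 ∨ T x = 1)
    (k : Fin N) (l : Fin m) {ι : ℝ}
    (hι : ∀ s : Fin N × Fin m → Bool,
      ex (fun ω => |T (X h ω s) - T (X h ω (flip (k, l) s))|) ≤ ι) :
    ex (fun ω : (Fin m → Bool) × I → Bool =>
      (ex (fun s => |T (X h ω s) - T (X h ω (flip (k, l) s))|)) ^ 2) ≤
      ι ^ 2 + (N + 1) * ((2 : ℝ) ^ m)⁻¹ * ι := by
  have hι0 : 0 ≤ ι := (ex_nonneg fun ω => abs_nonneg _).trans (hι (fun _ => false))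
  have hb : ∀ x y, |T x - T y| ≤ 1 := by
    intro x y
    rcases hT x with h | h <;> rcases hT y with h' | h' <;> rw [h, h'] <;> norm_num
  have e1 : (fun ω : (Fin m → Bool) × I → Bool =>
      (ex (fun s => |T (X h ω s) - T (X h ω (flip (k, l) s))|)) ^ 2) =
      fun ω => ex (fun s => ex (fun s' => |T (X h ω s) - T (X h ω (flip (k, l) s))| *
        |T (X h ω s') - T (X h ω (flip (k, l) s'))|)) := by
    funext ω
    rw [← ex_mul_ex, sq]
  rw [e1, ex_comm]
  have h1 : ∀ s : Fin N × Fin m → Bool,
      ex (fun ω : (Fin m → Bool) × I → Bool => ex (fun s' =>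
        |T (X h ω s) - T (X h ω (flip (k, l) s))| *
        |T (X h ω s') - T (X h ω (flip (k, l) s'))|)) ≤
      ι ^ 2 + (N + 1) * ((2 : ℝ) ^ m)⁻¹ * ι := by
    intro s
    rw [ex_comm, ← ex_co2 k l s, ← ex_const (I := Fin N × Fin m) (ι ^ 2), ← ex_mul_const, ← ex_add]
    apply ex_mono
    intro s'
    have h0 := co2_nonneg k l s s'
    by_cases hc : (∀ j, lett s j ≠ lett s' j) ∧ lett (flip (k, l) s) k ≠ lett s' k
    · rw [ex_flip_mul h k l hc.1 hc.2 (fun x y => |T x - T y|)]
      have := mul_le_mul (hι s) (hι s') (ex_nonneg fun ω => abs_nonneg _) hι0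
      have h3 : 0 ≤ co2 k l s s' * ι := mul_nonneg h0 hι0
      rw [sq]
      linarith
    · have h2 : 1 ≤ co2 k l s s' := by
        rw [not_and_or] at hc
        unfold co2
        rcases hc with hc | hc
        · push Not at hc
          obtain ⟨j, hj⟩ := hc
          have := one_le_co1 hj
          split_ifs <;> linarith
        · push Not at hc
          rw [if_pos hc]
          have := co1_nonneg s s'
          linarith
      have h3 : ex (fun ω : (Fin m → Bool) × I → Bool =>
          |T (X h ω s) - T (X h ω (flip (k, l) s))| *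
          |T (X h ω s') - T (X h ω (flip (k, l) s'))|) ≤ ι := by
        refine le_trans (ex_mono fun ω => ?_) (hι s)
        exact mul_le_of_le_one_right (abs_nonneg _) (hb _ _)
      have h4 : ι ≤ co2 k l s s' * ι := by nlinarith
      have := sq_nonneg ι
      linarith
  have := ex_mono h1
  rwa [ex_const] at this

/-- Third estimate: the influence of a block on a threshold function. -/
lemma block_model {f : (I → Bool) → ℝ} {a b : ℝ} (hab : a < b) (h : I → Fin N)
    (k : Fin N) (l : Fin m) (s : Fin N × Fin m → Bool) :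
    ex (fun ω => |(if b ≤ f (X h ω s) then (1 : ℝ) else 0) -
      (if b ≤ f (X h ω (flip (k, l) s)) then (1 : ℝ) else 0)|) ≤
      2 * ex (fun x => if a < f x ∧ f x < b then (1 : ℝ) else 0) +
        2 / (b - a) ^ 2 * ∑ i ∈ Finset.univ.filter (fun i => h i = k),
          ∑ S ∈ (Finset.univ : Finset (Finset I)).filter (fun S => i ∈ S), coef f S ^ 2 := by
  have hg : 0 < b - a := by linarith
  have hpt : ∀ u v : ℝ, |(if b ≤ u then (1 : ℝ) else 0) - (if b ≤ v then (1 : ℝ) else 0)| ≤
      (if a < u ∧ u < b then (1 : ℝ) else 0) + (if a < v ∧ v < b then (1 : ℝ) else 0) +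
        ((b - a) ^ 2)⁻¹ * (u - v) ^ 2 := by
    intro u v
    have key : ∀ u v : ℝ, b ≤ u → v ≤ a → 1 ≤ ((b - a) ^ 2)⁻¹ * (u - v) ^ 2 := by
      intro u v hu hv
      rw [inv_mul_eq_div, one_le_div (by positivity)]
      nlinarith
    have hsq : 0 ≤ ((b - a) ^ 2)⁻¹ * (u - v) ^ 2 := by positivity
    have hsq' : ((b - a) ^ 2)⁻¹ * (v - u) ^ 2 = ((b - a) ^ 2)⁻¹ * (u - v) ^ 2 := by ring
    by_cases h1 : b ≤ u <;> by_cases h2 : b ≤ v
    · rw [if_pos h1, if_pos h2, sub_self, abs_zero]
      have e1 : (0 : ℝ) ≤ (if a < u ∧ u < b then (1 : ℝ) else 0) := by split_ifs <;> norm_num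
      have e2 : (0 : ℝ) ≤ (if a < v ∧ v < b then (1 : ℝ) else 0) := by split_ifs <;> norm_num
      linarith
    · rw [if_pos h1, if_neg h2]
      have e1 : (0 : ℝ) ≤ (if a < u ∧ u < b then (1 : ℝ) else 0) := by split_ifs <;> norm_num
      by_cases h3 : a < v
      · rw [if_pos (⟨h3, not_le.1 h2⟩ : a < v ∧ v < b)]
        norm_num
        linarith
      · have e2 : (0 : ℝ) ≤ (if a < v ∧ v < b then (1 : ℝ) else 0) := by split_ifs <;> norm_num
        have := key u v h1 (not_lt.1 h3)
        norm_num
        linarith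
    · rw [if_neg h1, if_pos h2]
      have e2 : (0 : ℝ) ≤ (if a < v ∧ v < b then (1 : ℝ) else 0) := by split_ifs <;> norm_num
      by_cases h3 : a < u
      · rw [if_pos (⟨h3, not_le.1 h1⟩ : a < u ∧ u < b)]
        norm_num
        linarith
      · have e1 : (0 : ℝ) ≤ (if a < u ∧ u < b then (1 : ℝ) else 0) := by split_ifs <;> norm_num
        have := key v u h2 (not_lt.1 h3)
        norm_num
        linarith
    · rw [if_neg h1, if_neg h2, sub_self, abs_zero]
      have e1 : (0 : ℝ) ≤ (if a < u ∧ u < b then (1 : ℝ) else 0) := by split_ifs <;> norm_num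
      have e2 : (0 : ℝ) ≤ (if a < v ∧ v < b then (1 : ℝ) else 0) := by split_ifs <;> norm_num
      linarith
  refine (ex_mono fun ω => hpt _ _).trans ?_
  rw [ex_add, ex_add, ex_const_mul,
    ex_X h s (fun x => if a < f x ∧ f x < b then (1 : ℝ) else 0),
    ex_X h (flip (k, l) s) (fun x => if a < f x ∧ f x < b then (1 : ℝ) else 0)]
  have h2 : ex (fun ω : (Fin m → Bool) × I → Bool =>
      (f (X h ω s) - f (X h ω (flip (k, l) s))) ^ 2) ≤
      2 * ∑ i ∈ Finset.univ.filter (fun i => h i = k),
        ∑ S ∈ (Finset.univ : Finset (Finset I)).filter (fun S => i ∈ S), coef f S ^ 2 := by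
    apply ex_sq_diff f (emb h s) (emb h (flip (k, l) s))
    · intro i hi
      rw [Finset.mem_filter, not_and] at hi
      have hik : h i ≠ k := hi (Finset.mem_univ _)
      show (lett s (h i), i) = (lett (flip (k, l) s) (h i), i)
      rw [flip_lett_of_ne s l hik]
    · intro i j hij
      have hij' : (lett s (h i), i) = (lett (flip (k, l) s) (h j), j) := hij
      obtain ⟨h3, h4⟩ := Prod.mk.inj hij'
      refine ⟨h4, ?_⟩
      rw [Finset.mem_filter, not_and]
      intro _ hik
      rw [← h4, hik] at h3
      exact flip_lett_ne s k l h3.symm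
  have h3 : 0 ≤ ((b - a) ^ 2)⁻¹ := by positivity
  have h4 := mul_le_mul_of_nonneg_left h2 h3
  have h5 : 2 / (b - a) ^ 2 * ∑ i ∈ Finset.univ.filter (fun i => h i = k),
        ∑ S ∈ (Finset.univ : Finset (Finset I)).filter (fun S => i ∈ S), coef f S ^ 2 =
      ((b - a) ^ 2)⁻¹ * (2 * ∑ i ∈ Finset.univ.filter (fun i => h i = k),
        ∑ S ∈ (Finset.univ : Finset (Finset I)).filter (fun S => i ∈ S), coef f S ^ 2) := by
    ring
  rw [h5]
  linarith

end Pool.Agent.Lib_helper30.AA.GAP
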