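import Pool.Agent.Lib_helper8.GAP.Master

/-!
# The choice of the parameters
-/

set_option autoImplicit false
set_option linter.unusedSectionVars false

open Finset

namespace Pool.Agent.Lib_helper30.AA.GAP

variable {I : Type} [Fintype I] [DecidableEq I]

lemma gap_abs {f : (I → Bool) → ℝ} (hf : ∀ x, |f x| ≤ 1) {d : ℕ} (hd : 1 ≤ d)
    (hdeg : ∀ S : Finset I, d < S.card → coef f S = 0) {a b v : ℝ} (hab : a < b)
    (hg2 : b - a ≤ 2) (hv2 : v ≤ 1 / 2) {k : ℕ} (hk : 1 ≤ k) (hdk : (d : ℝ) ≤ k * ((b - a) * v))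
    (hp1 : v ≤ ex (thr f b)) (hp2 : v ≤ 1 - ex (thr f b)) {N m : ℕ} {RR : ℝ}
    (hm1 : 1 ≤ m) (hNR : (N : ℝ) = 4 * (k : ℝ) ^ 2 * RR) (hRk : 2 * (k : ℝ) ≤ RR)
    (hRm : RR = 2 ^ 22 * (k : ℝ) ^ 20 * (m : ℝ) ^ 17) (hH1 : 8 * RR * (N + 1) ≤ 2 ^ m)
    (hinf : ∀ i, infl f i ≤ 1 / (N : ℝ))
    (hgap : 2 ^ (N * m) * ex (gp f a b) ≤ 1 / (16 * RR)) : False := by
  have hg : 0 < b - a := by linarith
  have hd' : (1 : ℝ) ≤ d := by exact_mod_cast hd
  have hk' : (1 : ℝ) ≤ k := by exact_mod_cast hk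
  have hk0 : (0 : ℝ) < k := by linarith
  have hv0 : 0 < v := by
    by_contra hcon
    push Not at hcon
    have : (k : ℝ) * ((b - a) * v) ≤ 0 :=
      mul_nonpos_of_nonneg_of_nonpos hk0.le (mul_nonpos_of_nonneg_of_nonpos hg.le hcon)
    linarith
  set δ := ex (gp f a b) with hδ
  have hRR1 : 1 ≤ RR := by linarith
  have hRR0 : 0 < RR := by linarith
  have hN0 : (0 : ℝ) < N := by rw [hNR]; positivity
  have hNpos : 0 < N := by exact_mod_cast hN0
  have : NeZero N := ⟨hNpos.ne'⟩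
  have hN1 : (1 : ℝ) ≤ N := by exact_mod_cast hNpos
  have hδ0 : 0 ≤ δ := ex_nonneg (gp_nonneg f a b)
  set MM : ℝ := (2 : ℝ) ^ m with hMM
  have hMM0 : 0 < MM := by rw [hMM]; positivity
  have hH1' : ((N : ℝ) + 1) * MM⁻¹ ≤ 1 / (8 * RR) := by
    rw [← div_eq_mul_inv, div_le_div_iff₀ hMM0 (by positivity)]
    linarith
  have h8R : 1 / (8 * RR) ≤ 1 / (16 * k) := by
    apply one_div_le_one_div_of_le (by positivity)
    linarith
  have h16R : 1 / (16 * RR) ≤ 1 / (16 * k) := by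
    apply one_div_le_one_div_of_le (by positivity)
    linarith
  have hH2 : (N : ℝ) * MM⁻¹ ≤ 1 / (16 * k) := by
    have : (N : ℝ) * MM⁻¹ ≤ ((N : ℝ) + 1) * MM⁻¹ :=
      mul_le_mul_of_nonneg_right (by linarith) (by positivity)
    linarith
  have hH3 : 2 ^ (N * m) * δ ≤ 1 / (16 * k) := hgap.trans h16R
  have hpow : (N : ℝ) ≤ 2 ^ (N * m) := by
    have h1 : (N : ℝ) ≤ 2 ^ N := by exact_mod_cast (Nat.lt_two_pow_self (n := N)).le
    refine h1.trans (pow_le_pow_right₀ (by norm_num) ?_)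
    exact Nat.le_mul_of_pos_right _ hm1
  have hNδ : (N : ℝ) * δ ≤ 1 / (16 * RR) :=
    (mul_le_mul_of_nonneg_right hpow hδ0).trans hgap
  have hδR : δ ≤ 1 / (16 * RR) := by
    have : δ ≤ (N : ℝ) * δ := by nlinarith
    linarith
  have hNδ' : (N : ℝ) * δ ≤ 1 / 16 := by
    have : 1 / (16 * RR) ≤ 1 / 16 := by
      apply one_div_le_one_div_of_le (by norm_num)
      linarith
    linarith
  -- the block influences
  have hkg : 2 * (d : ℝ) ≤ k * (b - a) := by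
    have : (b - a) * v ≤ (b - a) * (1 / 2) := mul_le_mul_of_nonneg_left hv2 hg.le
    nlinarith
  have hc : 2 / (b - a) ^ 2 ≤ (k : ℝ) ^ 2 / (2 * (d : ℝ) ^ 2) := by
    rw [div_le_div_iff₀ (by positivity) (by positivity)]
    nlinarith [mul_le_mul hkg hkg (by positivity) (by positivity)]
  have hc1 : 2 / (b - a) ^ 2 * d ≤ (k : ℝ) ^ 2 / 2 := by
    calc 2 / (b - a) ^ 2 * d ≤ (k : ℝ) ^ 2 / (2 * (d : ℝ) ^ 2) * d :=
          mul_le_mul_of_nonneg_right hc (by positivity)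
      _ = (k : ℝ) ^ 2 / 2 * (1 / d) := by field_simp
      _ ≤ (k : ℝ) ^ 2 / 2 * 1 := by
          refine mul_le_mul_of_nonneg_left ?_ (by positivity)
          rw [div_le_one (by linarith)]
          exact hd'
      _ = (k : ℝ) ^ 2 / 2 := mul_one _
  have hc2 : 2 / (b - a) ^ 2 ≤ (k : ℝ) ^ 2 / 2 := by
    refine le_trans ?_ hc1
    exact le_mul_of_one_le_right (by positivity) hd'
  obtain ⟨h, hh⟩ := exists_partition (infl f) (infl_nonneg f) (θ := 1 / (N : ℝ)) (by positivity)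
    hinf (sum_inf_le hf hdeg) N
  set ι : Fin N → ℝ := fun k' => 2 * δ + 2 / (b - a) ^ 2 *
      ∑ i ∈ Finset.univ.filter (fun i => h i = k'), infl f i with hι
  have hι0 : ∀ k', 0 ≤ ι k' := by
    intro k'
    have : 0 ≤ ∑ i ∈ Finset.univ.filter (fun i => h i = k'), infl f i :=
      Finset.sum_nonneg fun i _ => infl_nonneg f i
    simp only [hι]
    positivity
  have hιm : ∀ k', ι k' ≤ 3 / (8 * RR) := by
    intro k'
    have h1 : 2 / (b - a) ^ 2 * ∑ i ∈ Finset.univ.filter (fun i => h i = k'), infl f i ≤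
        2 / (b - a) ^ 2 * ((d : ℝ) / N + 1 / N) :=
      mul_le_mul_of_nonneg_left (hh k') (by positivity)
    have h2 : 2 / (b - a) ^ 2 * ((d : ℝ) / N + 1 / N) =
        (2 / (b - a) ^ 2 * d + 2 / (b - a) ^ 2) / N := by ring
    have h3 : (2 / (b - a) ^ 2 * d + 2 / (b - a) ^ 2) / N ≤ ((k : ℝ) ^ 2) / N := by
      apply div_le_div_of_nonneg_right _ hN0.le
      linarith
    have h4 : ((k : ℝ) ^ 2) / N = 1 / (4 * RR) := by
      rw [hNR]
      field_simp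
    have h5 : 2 * δ ≤ 1 / (8 * RR) := by
      have : 1 / (8 * RR) = 2 * (1 / (16 * RR)) := by field_simp; norm_num
      rw [this]; linarith
    have h6 : 3 / (8 * RR) = 1 / (8 * RR) + 1 / (4 * RR) := by field_simp; norm_num
    simp only [hι]
    rw [h6]
    linarith
  have hιs : ∑ k', ι k' ≤ (k : ℝ) ^ 2 := by
    simp only [hι]
    rw [Finset.sum_add_distrib, Finset.sum_const, Finset.card_univ, Fintype.card_fin,
      nsmul_eq_mul, ← Finset.mul_sum, Finset.sum_fiberwise]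
    have h1 := mul_le_mul_of_nonneg_left (sum_inf_le hf hdeg)
      (by positivity : 0 ≤ 2 / (b - a) ^ 2)
    have h2 : ∑ i, infl f i = ∑ i, ∑ S ∈ (Finset.univ : Finset (Finset I)).filter
      (fun S => i ∈ S), coef f S ^ 2 := rfl
    rw [← h2] at h1
    nlinarith
  have hQ : ∑ k', (ι k' ^ 2 + ((N : ℝ) + 1) * MM⁻¹ * ι k') ≤ 1 / (2 * RR) * (k : ℝ) ^ 2 := by
    calc ∑ k', (ι k' ^ 2 + ((N : ℝ) + 1) * MM⁻¹ * ι k') ≤ ∑ k', 1 / (2 * RR) * ι k' := by
          refine Finset.sum_le_sum fun k' _ => ?_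
          have h0 : 1 / (2 * RR) = 3 / (8 * RR) + 1 / (8 * RR) := by field_simp; norm_num
          have h1 : 1 / (2 * RR) * ι k' = 3 / (8 * RR) * ι k' + 1 / (8 * RR) * ι k' := by
            rw [h0, add_mul]
          rw [h1, sq]
          exact add_le_add (mul_le_mul_of_nonneg_right (hιm k') (hι0 k'))
            (mul_le_mul_of_nonneg_right hH1' (hι0 k'))
      _ = 1 / (2 * RR) * ∑ k', ι k' := by rw [Finset.mul_sum]
      _ ≤ 1 / (2 * RR) * (k : ℝ) ^ 2 := mul_le_mul_of_nonneg_left hιs (by positivity)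
  -- the certificate size
  set s0 : ℕ := 4 * k ^ 2 * m ^ 2 with hs0
  have hs : 8 * ((d * m : ℕ) : ℝ) ^ 2 < (b - a) * (s0 + 1) := by
    have h1 : (d : ℝ) ^ 2 ≤ (b - a) * ((k : ℝ) ^ 2 / 2) := by
      have h2 : (d : ℝ) ^ 2 ≤ (k * ((b - a) * v)) ^ 2 := by
        apply pow_le_pow_left₀ (by positivity) hdk
      have h3 : v ^ 2 ≤ 1 / 4 := by nlinarith
      calc (d : ℝ) ^ 2 ≤ (k * ((b - a) * v)) ^ 2 := h2
        _ = (k : ℝ) ^ 2 * ((b - a) * (b - a)) * v ^ 2 := by ring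
        _ ≤ (k : ℝ) ^ 2 * ((b - a) * 2) * (1 / 4) := by
            apply mul_le_mul _ h3 (by positivity) (by positivity)
            apply mul_le_mul_of_nonneg_left _ (by positivity)
            exact mul_le_mul_of_nonneg_left hg2 hg.le
        _ = (b - a) * ((k : ℝ) ^ 2 / 2) := by ring
    rw [hs0]
    push_cast
    have h4 : (0 : ℝ) ≤ (m : ℝ) ^ 2 := by positivity
    nlinarith [mul_le_mul_of_nonneg_right h1 h4]
  have hmas := master (m := m) hf hdeg hab h hs (ι := ι) (fun k' => le_refl _)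
  rw [← hδ, ← hMM] at hmas
  -- the left side
  have hv1 : 1 / (2 * (k : ℝ)) ≤ v := by
    rw [div_le_iff₀ (by positivity)]
    nlinarith [mul_le_mul_of_nonneg_right hg2 hv0.le]
  have hvar : 1 / (4 * (k : ℝ)) ≤ ex (thr f b) - ex (thr f b) ^ 2 := by
    have h1 : v * (1 - v) ≤ ex (thr f b) * (1 - ex (thr f b)) := by nlinarith
    have h2 : v * (1 / 2) ≤ v * (1 - v) := mul_le_mul_of_nonneg_left (by linarith) hv0.le
    have h3 : 1 / (4 * (k : ℝ)) = 1 / (2 * (k : ℝ)) * (1 / 2) := by field_simp; norm_num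
    have h4 : 1 / (2 * (k : ℝ)) * (1 / 2) ≤ v * (1 / 2) :=
      mul_le_mul_of_nonneg_right hv1 (by norm_num)
    nlinarith
  have hleft : 1 / (8 * (k : ℝ)) ≤ ((s0 * s0 * (s0 * s0 + 1) : ℕ) : ℝ) / 2 *
      √(m * ∑ k', (ι k' ^ 2 + (N + 1) * MM⁻¹ * ι k')) := by
    have h1 : 1 / (8 * (k : ℝ)) = 1 / (4 * (k : ℝ)) - 1 / (16 * k) - 1 / (16 * k) := by
      field_simp; norm_num
    rw [h1]
    refine le_trans ?_ hmas
    linarith
  -- the right side
  have hD : ((s0 * s0 * (s0 * s0 + 1) : ℕ) : ℝ) / 2 ≤ 256 * (k : ℝ) ^ 8 * (m : ℝ) ^ 8 := by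
    have hs1 : (1 : ℝ) ≤ (s0 : ℝ) * s0 := by
      have : 1 ≤ s0 * s0 := by
        have h0 : 0 < s0 := by
          rw [hs0]
          have : 0 < k := hk
          have : 0 < m := hm1
          positivity
        exact Nat.mul_pos h0 h0
      exact_mod_cast this
    have h2 : (s0 : ℝ) * s0 = 16 * (k : ℝ) ^ 4 * (m : ℝ) ^ 4 := by
      rw [hs0]; push_cast; ring
    push_cast
    rw [h2] at hs1 ⊢
    nlinarith
  have hm0 : (0 : ℝ) < m := by exact_mod_cast hm1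
  have hA0 : 0 ≤ (m : ℝ) * ∑ k', (ι k' ^ 2 + ((N : ℝ) + 1) * MM⁻¹ * ι k') := by
    apply mul_nonneg hm0.le
    refine Finset.sum_nonneg fun k' _ => ?_
    have := hι0 k'
    positivity
  have hsq := pow_le_pow_left₀ (by positivity) hleft 2
  rw [mul_pow, Real.sq_sqrt hA0] at hsq
  have hD0 : (0 : ℝ) ≤ ((s0 * s0 * (s0 * s0 + 1) : ℕ) : ℝ) / 2 := by positivity
  have hfin : (((s0 * s0 * (s0 * s0 + 1) : ℕ) : ℝ) / 2) ^ 2 *
      (m * ∑ k', (ι k' ^ 2 + (N + 1) * MM⁻¹ * ι k')) ≤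
      (256 * (k : ℝ) ^ 8 * (m : ℝ) ^ 8) ^ 2 * (m * (1 / (2 * RR) * (k : ℝ) ^ 2)) := by
    apply mul_le_mul (pow_le_pow_left₀ hD0 hD 2) (mul_le_mul_of_nonneg_left hQ hm0.le) hA0
      (by positivity)
  have hval : (256 * (k : ℝ) ^ 8 * (m : ℝ) ^ 8) ^ 2 * (m * (1 / (2 * RR) * (k : ℝ) ^ 2)) =
      1 / (128 * (k : ℝ) ^ 2) := by
    rw [hRm]
    field_simp
    norm_num
  rw [hval] at hfin
  have hcontra : 1 / (128 * (k : ℝ) ^ 2) < (1 / (8 * (k : ℝ))) ^ 2 := by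
    rw [div_pow, one_pow, mul_pow]
    apply one_div_lt_one_div_of_lt (by positivity)
    nlinarith [sq_nonneg (k : ℝ), mul_pos hk0 hk0]
  linarith

end Pool.Agent.Lib_helper30.AA.GAP
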