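import Pool.Agent.Lib_helper8.GAP.Sim
import Pool.Agent.Lib_helper8.QAAMain

/-!
# The acceptance probability of a quantum query algorithm is a polynomial of low degree
-/

set_option autoImplicit false
set_option linter.unusedSectionVars false

open Finset

namespace Pool.Agent.Lib_helper30.AA.GAP

open Pool.Agent.Lib_helper8.QAA (Algorithm)

variable {I A : Type} [Fintype I] [DecidableEq I] [Fintype A] {p : ℕ}

/-- Functions of at most `D` coordinates. -/
def jun (I : Type) (D : ℕ) : Set ((I → Bool) → ℂ) :=
  {g | ∃ U : Finset I, U.card ≤ D ∧ ∀ x y : I → Bool, (∀ i ∈ U, x i = y i) → g x = g y}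

/-- Complex functions of degree at most `D`. -/
def cd (I : Type) (D : ℕ) : Submodule ℂ ((I → Bool) → ℂ) := Submodule.span ℂ (jun I D)

lemma cd_mul {D E : ℕ} {F G : (I → Bool) → ℂ} (hF : F ∈ cd I D) (hG : G ∈ cd I E) :
    F * G ∈ cd I (D + E) := by
  have h1 : cd I D * cd I E ≤ cd I (D + E) := by
    unfold cd
    rw [Submodule.span_mul_span, Submodule.span_le]
    rintro _ ⟨g, ⟨U, hU, hg⟩, h, ⟨V, hV, hh⟩, rfl⟩
    apply Submodule.subset_span
    refine ⟨U ∪ V, (Finset.card_union_le _ _).trans (add_le_add hU hV), fun x y hxy => ?_⟩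
    show g x * h x = g y * h y
    rw [hg x y (fun i hi => hxy i (Finset.mem_union_left _ hi)),
      hh x y (fun i hi => hxy i (Finset.mem_union_right _ hi))]
  exact h1 (Submodule.mul_mem_mul hF hG)

lemma cd_const (c : ℂ) : (fun _ => c) ∈ cd I 0 :=
  Submodule.subset_span ⟨∅, by simp, fun _ _ _ => rfl⟩

lemma cd_conj {D : ℕ} {F : (I → Bool) → ℂ} (hF : F ∈ cd I D) :
    (fun x => (starRingEnd ℂ) (F x)) ∈ cd I D := by
  unfold cd at *
  induction hF using Submodule.span_induction with
  | mem g hg =>
    obtain ⟨U, hU, hg⟩ := hg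
    exact Submodule.subset_span ⟨U, hU, fun x y hxy => congrArg (starRingEnd ℂ) (hg x y hxy)⟩
  | zero =>
    have : (fun x : I → Bool => (starRingEnd ℂ) ((0 : (I → Bool) → ℂ) x)) = 0 := by
      funext x; simp
    rw [this]
    exact Submodule.zero_mem _
  | add g h _ _ h1 h2 =>
    have : (fun x : I → Bool => (starRingEnd ℂ) ((g + h) x)) =
        (fun x => (starRingEnd ℂ) (g x)) + fun x => (starRingEnd ℂ) (h x) := by
      funext x; simp
    rw [this]
    exact Submodule.add_mem _ h1 h2
  | smul c g _ h1 =>
    have : (fun x : I → Bool => (starRingEnd ℂ) ((c • g) x)) =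
        (starRingEnd ℂ c) • fun x => (starRingEnd ℂ) (g x) := by
      funext x; simp
    rw [this]
    exact Submodule.smul_mem _ _ h1

lemma cd_sum_chi {D : ℕ} {F : (I → Bool) → ℂ} (hF : F ∈ cd I D) {S : Finset I} (hS : D < S.card) :
    ∑ x : I → Bool, F x * ((chi S x : ℝ) : ℂ) = 0 := by
  unfold cd at hF
  induction hF using Submodule.span_induction with
  | mem g hg =>
    obtain ⟨U, hU, hg⟩ := hg
    have hSU : ¬ S ⊆ U := fun h => by
      have := Finset.card_le_card h
      omega
    have key : ∀ G : (I → Bool) → ℝ, (∀ x y : I → Bool, (∀ i ∈ U, x i = y i) → G x = G y) →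
        ∑ x : I → Bool, G x * chi S x = 0 := by
      intro G hG
      have h1 := coef_eq_zero_of_dep hG hSU
      unfold coef at h1
      have h2 : ((2 : ℝ) ^ Fintype.card I)⁻¹ ≠ 0 := by positivity
      exact (mul_eq_zero.1 h1).resolve_left h2
    have hre := key (fun x => (g x).re) (fun x y hxy => by rw [hg x y hxy])
    have him := key (fun x => (g x).im) (fun x y hxy => by rw [hg x y hxy])
    apply Complex.ext
    · rw [Complex.re_sum, Complex.zero_re, ← hre]
      refine Finset.sum_congr rfl fun x _ => ?_
      simp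
    · rw [Complex.im_sum, Complex.zero_im, ← him]
      refine Finset.sum_congr rfl fun x _ => ?_
      simp
  | zero => simp
  | add g h _ _ h1 h2 =>
    simp only [Pi.add_apply, add_mul]
    rw [Finset.sum_add_distrib, h1, h2, add_zero]
  | smul c g _ h1 =>
    simp only [Pi.smul_apply, smul_eq_mul, mul_assoc]
    rw [← Finset.mul_sum, h1, mul_zero]

lemma cd_state (Q : Algorithm I A p) (s : ℕ) : ∀ a : A, (fun x => Q.state s x a) ∈ cd I (p * s) := by
  classical
  induction s with
  | zero =>
    intro a
    rw [mul_zero]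
    exact cd_const (Q.init a)
  | succ s ih =>
    intro a
    have h1 : (fun x => Q.state (s + 1) x a) = ∑ b : A,
        (Q.step s (EuclideanSpace.single b (1 : ℂ)) a) • ((Q.phase b) * fun x => Q.state s x b) := by
      funext x
      show Q.step s (Q.oracle x (Q.state s x)) a = _
      have h2 : Q.oracle x (Q.state s x) = ∑ b : A,
          (Q.phase b x * Q.state s x b) • EuclideanSpace.single b (1 : ℂ) := by
        ext c
        unfold Algorithm.oracle
        simp only [WithLp.ofLp_sum, WithLp.ofLp_smul, Finset.sum_apply, Pi.smul_apply,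
          smul_eq_mul]
        rw [Finset.sum_eq_single c]
        · simp
        · intro b _ hb
          simp [Ne.symm hb]
        · intro h
          exact absurd (Finset.mem_univ c) h
      rw [h2, map_sum]
      simp only [map_smul, Finset.sum_apply, Pi.smul_apply, Pi.mul_apply, smul_eq_mul,
        PiLp.smul_apply, WithLp.ofLp_sum]
      refine Finset.sum_congr rfl fun b _ => ?_
      ring
    rw [h1]
    apply Submodule.sum_mem
    intro b _
    apply Submodule.smul_mem
    have h3 : p * (s + 1) = p + p * s := by ring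
    rw [h3]
    apply cd_mul _ (ih b)
    exact Submodule.subset_span ⟨Q.query b, Q.card_query_le b, Q.phase_congr b⟩

/-- The degree of the acceptance probability. -/
lemma coef_prob (Q : Algorithm I A p) (r : ℕ) (S : Finset I) (hS : 2 * (p * r) < S.card) :
    coef (Q.prob r) S = 0 := by
  have h1 : (fun x => ((Q.prob r x : ℝ) : ℂ)) ∈ cd I (2 * (p * r)) := by
    have h2 : (fun x => ((Q.prob r x : ℝ) : ℂ)) = ∑ a ∈ Q.accept,
        ((fun x => Q.state r x a) * fun x => (starRingEnd ℂ) (Q.state r x a)) := by
      funext x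
      unfold Algorithm.prob
      rw [Finset.sum_apply]
      push_cast
      refine Finset.sum_congr rfl fun a _ => ?_
      show _ = Q.state r x a * (starRingEnd ℂ) (Q.state r x a)
      rw [Complex.mul_conj, Complex.normSq_eq_norm_sq]
      push_cast
      rfl
    rw [h2]
    apply Submodule.sum_mem
    intro a _
    rw [two_mul]
    exact cd_mul (cd_state Q r a) (cd_conj (cd_state Q r a))
  have h2 := cd_sum_chi h1 hS
  have h3 : ∑ x : I → Bool, Q.prob r x * chi S x = 0 := by
    have : ((∑ x : I → Bool, Q.prob r x * chi S x : ℝ) : ℂ) = 0 := by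
      push_cast
      exact h2
    exact_mod_cast this
  unfold coef
  rw [h3, mul_zero]

end Pool.Agent.Lib_helper30.AA.GAP
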