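import Pool.Agent.Lib_helper8.GAP.Main
import Pool.Agent.Lib_helper8.GAP.Defs

/-!
# Decision trees for threshold functions of bounded polynomials with a gap
-/

set_option autoImplicit false
set_option linter.unusedSectionVars false

open Finset

namespace Pool.Agent.Lib_helper30.AA.GAP

open Pool.Agent.Lib_helper8.GAP (DTree)

variable {I : Type} [Fintype I] [DecidableEq I]

/-- The tree which answers the queries to `i` by `b`. -/
def fx (i : I) (b : Bool) : DTree I → DTree I
  | .leaf c => .leaf c
  | .node j t₀ t₁ => if j = i then (if b then fx i b t₁ else fx i b t₀) else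
      .node j (fx i b t₀) (fx i b t₁)

lemma fx_eval (i : I) (b : Bool) (t : DTree I) (x : I → Bool) :
    (fx i b t).eval x = t.eval (Function.update x i b) := by
  induction t with
  | leaf c => rfl
  | node j t₀ t₁ h₀ h₁ =>
    unfold fx
    by_cases hj : j = i
    · subst hj
      rw [if_pos rfl]
      cases b with
      | true => simp [DTree.eval, h₁]
      | false => simp [DTree.eval, h₀]
    · rw [if_neg hj]
      simp [DTree.eval, h₀, h₁, hj]

lemma fx_depth (i : I) (b : Bool) (t : DTree I) : (fx i b t).depth ≤ t.depth := by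
  induction t with
  | leaf c => exact le_rfl
  | node j t₀ t₁ h₀ h₁ =>
    unfold fx
    split_ifs
    · exact h₁.trans ((le_max_right _ _).trans (Nat.le_succ _))
    · exact h₀.trans ((le_max_left _ _).trans (Nat.le_succ _))
    · exact Nat.succ_le_succ (max_le_max h₀ h₁)

/-- The error of a tree. -/
noncomputable def er (T : (I → Bool) → ℝ) (t : DTree I) : ℝ :=
  ex (fun x => |T x - if t.eval x then 1 else 0|)

lemma update_flip (i : I) (b : Bool) (x : I → Bool) :
    Function.update (flip i x) i b = Function.update x i b := by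
  simp [flip]

/-- Splitting an expectation according to the value of a coordinate. -/
lemma ex_split (i : I) (G : (I → Bool) → ℝ) :
    ex G = (ex (fun x => G (Function.update x i false)) +
      ex (fun x => G (Function.update x i true))) / 2 := by
  rw [← ex_ite (i := i) (F := fun x => G (Function.update x i false))
    (G := fun x => G (Function.update x i true)) (fun x => by rw [update_flip])
    (fun x => by rw [update_flip])]
  congr 1
  funext x
  cases hx : x i with
  | true =>
    rw [if_pos rfl]
    congr 1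
    rw [← hx, Function.update_eq_self]
  | false =>
    rw [if_neg (by simp)]
    congr 1
    rw [← hx, Function.update_eq_self]

/-- A function not depending on `i` is best approximated by such a tree. -/
lemma er_fx (i : I) {T : (I → Bool) → ℝ} (hT : ∀ (x : I → Bool) (b : Bool),
    T (Function.update x i b) = T x) (t : DTree I) :
    ∃ t' : DTree I, t'.depth ≤ t.depth ∧ (∀ (x : I → Bool) (b : Bool),
      t'.eval (Function.update x i b) = t'.eval x) ∧ er T t' ≤ er T t := by
  have h1 : er T t = (er T (fx i false t) + er T (fx i true t)) / 2 := by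
    unfold er
    rw [ex_split i]
    simp_rw [hT, fx_eval]
  have hinv : ∀ c : Bool, ∀ (x : I → Bool) (b : Bool),
      (fx i c t).eval (Function.update x i b) = (fx i c t).eval x := by
    intro c x b
    rw [fx_eval, fx_eval, Function.update_idem]
  rcases le_total (er T (fx i false t)) (er T (fx i true t)) with h | h
  · exact ⟨_, fx_depth i false t, hinv false, by linarith⟩
  · exact ⟨_, fx_depth i true t, hinv true, by linarith⟩

/-- One query. -/
lemma er_node (i : I) {T : (I → Bool) → ℝ} {e₀ e₁ : ℝ} {k : ℕ}
    (h₀ : ∃ t : DTree I, t.depth ≤ k ∧ er (fun x => T (Function.update x i false)) t ≤ e₀)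
    (h₁ : ∃ t : DTree I, t.depth ≤ k ∧ er (fun x => T (Function.update x i true)) t ≤ e₁) :
    ∃ t : DTree I, t.depth ≤ k + 1 ∧ er T t ≤ (e₀ + e₁) / 2 := by
  obtain ⟨t₀, d₀, r₀⟩ := h₀
  obtain ⟨t₁, d₁, r₁⟩ := h₁
  obtain ⟨s₀, a₀, b₀, c₀⟩ := er_fx i (T := fun x => T (Function.update x i false))
    (fun x b => by simp) t₀
  obtain ⟨s₁, a₁, b₁, c₁⟩ := er_fx i (T := fun x => T (Function.update x i true))
    (fun x b => by simp) t₁
  refine ⟨.node i s₀ s₁, Nat.succ_le_succ (max_le (a₀.trans d₀) (a₁.trans d₁)), ?_⟩
  have h2 : er T (.node i s₀ s₁) = (er (fun x => T (Function.update x i false)) s₀ +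
      er (fun x => T (Function.update x i true)) s₁) / 2 := by
    unfold er
    rw [ex_split i]
    simp [DTree.eval, b₀, b₁]
  rw [h2]
  linarith

lemma restr_deg {f : (I → Bool) → ℝ} {d : ℕ} (hdeg : ∀ S : Finset I, d < S.card → coef f S = 0)
    (i : I) (b : Bool) : ∀ S : Finset I, d < S.card →
      coef (fun x => f (Function.update x i b)) S = 0 := by
  intro S hS
  have h1 : (fun x => f (Function.update x i b)) = fun x => f (mix {i}ᶜ (fun _ => b) x) := by
    funext x
    congr 1
    funext j
    unfold mix
    by_cases hj : j = i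
    · subst hj; simp
    · simp [hj]
  rw [h1]
  exact coef_mix_eq_zero hdeg hS

lemma infl_eq (f : (I → Bool) → ℝ) (j : I) :
    infl f j = ex (fun x => ((f x - f (flip j x)) / 2) ^ 2) := influence_ex f j

lemma infl_split (f : (I → Bool) → ℝ) (i : I) :
    ∑ j, infl (fun x => f (Function.update x i false)) j +
      ∑ j, infl (fun x => f (Function.update x i true)) j ≤ 2 * (∑ j, infl f j - infl f i) := by
  have h1 : ∀ j, infl (fun x => f (Function.update x i false)) j +
      infl (fun x => f (Function.update x i true)) j = if j = i then 0 else 2 * infl f j := by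
    intro j
    split_ifs with hj
    · subst hj
      rw [infl_eq, infl_eq]
      simp_rw [update_flip]
      simp [ex_const]
    · rw [infl_eq, infl_eq, infl_eq, ex_split i (fun x => ((f x - f (flip j x)) / 2) ^ 2)]
      have h2 : ∀ (b : Bool) (x : I → Bool),
          Function.update (flip j x) i b = flip j (Function.update x i b) := by
        intro b x
        unfold flip
        rw [Function.update_of_ne hj, Function.update_comm hj]
      simp_rw [h2]
      ring
  rw [← Finset.sum_add_distrib]
  simp_rw [h1]
  have h3 : ∑ j, infl f j = infl f i + ∑ j ∈ Finset.univ.erase i, infl f j :=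
    (Finset.add_sum_erase _ _ (Finset.mem_univ i)).symm
  have h4 : ∑ j, (if j = i then 0 else 2 * infl f j) = ∑ j ∈ Finset.univ.erase i, 2 * infl f j := by
    rw [← Finset.add_sum_erase _ _ (Finset.mem_univ i), if_pos rfl, zero_add]
    refine Finset.sum_congr rfl fun j hj => ?_
    rw [if_neg (Finset.ne_of_mem_erase hj)]
  rw [h4, h3, ← Finset.mul_sum]
  linarith

lemma er_le_one {T : (I → Bool) → ℝ} (hT : ∀ x, T x = 0 ∨ T x = 1) (t : DTree I) :
    er T t ≤ 1 := by
  unfold er
  refine (ex_mono (g := fun _ => (1 : ℝ)) ?_).trans (ex_const 1).le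
  intro x
  rcases hT x with h | h <;> rw [h] <;> split_ifs <;> norm_num

/-- The decision trees. -/
lemma sim_aux {d : ℕ} (hd : 1 ≤ d) {a b v : ℝ} (hab : a < b) (hv : 0 < v) {θ δ₁ : ℝ}
    (hθ : θ = ((b - a) * v / (64 * d)) ^ 40)
    (hδ₁ : δ₁ = Real.exp (-(64 * d / ((b - a) * v)) ^ 40)) (k : ℕ) :
    ∀ f : (I → Bool) → ℝ, (∀ x, |f x| ≤ 1) → (∀ S : Finset I, d < S.card → coef f S = 0) →
    ∃ t : DTree I, t.depth ≤ k ∧
      er (thr f b) t ≤ v + ex (gp f a b) / δ₁ + (∑ j, infl f j) / (θ * (k + 1)) := by
  have hg : 0 < b - a := by linarith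
  have hd0 : (0 : ℝ) < d := by exact_mod_cast hd
  have hθ0 : 0 < θ := by rw [hθ]; positivity
  have hδ0 : 0 < δ₁ := by rw [hδ₁]; positivity
  have hδ1 : δ₁ ≤ 1 := by
    rw [hδ₁]
    apply Real.exp_le_one_iff.2
    have : 0 ≤ (64 * (d : ℝ) / ((b - a) * v)) ^ 40 := by positivity
    linarith
  -- the inactive case
  have inact : ∀ (k : ℕ) (f : (I → Bool) → ℝ), (∀ x, |f x| ≤ 1) →
      (∀ S : Finset I, d < S.card → coef f S = 0) → (∀ i, infl f i < θ) →
      ∃ t : DTree I, t.depth ≤ k ∧
      er (thr f b) t ≤ v + ex (gp f a b) / δ₁ + (∑ j, infl f j) / (θ * (k + 1)) := by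
    intro k f hf hdeg hinf
    have hgp0 : 0 ≤ ex (gp f a b) := ex_nonneg (gp_nonneg f a b)
    have hgp1 : ex (gp f a b) ≤ ex (gp f a b) / δ₁ := by
      rw [le_div_iff₀ hδ0]
      exact mul_le_of_le_one_right hgp0 hδ1
    have hW0 : 0 ≤ (∑ j, infl f j) / (θ * (k + 1)) := by
      have : 0 ≤ ∑ j, infl f j := Finset.sum_nonneg fun j _ => infl_nonneg f j
      positivity
    by_cases h1 : v ≤ ex (thr f b)
    · by_cases h2 : v ≤ ex (low f a)
      · by_cases h3 : ex (gp f a b) ≤ δ₁
        · exfalso
          rw [hδ₁] at h3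
          obtain ⟨i, hi⟩ := gap_main hf hd hdeg hab hv h1 h2 h3
          rw [← hθ] at hi
          exact absurd hi (not_le.2 (hinf i))
        · refine ⟨.leaf true, Nat.zero_le _, ?_⟩
          have h4 := er_le_one (thr_zero_or_one f b) (.leaf true)
          have h5 : 1 ≤ ex (gp f a b) / δ₁ := by
            rw [one_le_div hδ0]
            exact (not_le.1 h3).le
          linarith
      · refine ⟨.leaf true, Nat.zero_le _, ?_⟩
        have h4 : er (thr f b) (.leaf true) ≤ ex (low f a) + ex (gp f a b) := by
          unfold er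
          rw [← ex_add]
          apply ex_mono
          intro x
          unfold thr low gp
          simp only [DTree.eval, if_true]
          by_cases c1 : b ≤ f x
          · rw [if_pos c1, sub_self, abs_zero]
            split_ifs <;> norm_num
          · rw [if_neg c1]
            by_cases c2 : f x ≤ a
            · rw [if_pos c2]
              split_ifs <;> norm_num
            · rw [if_neg c2, if_pos ⟨not_le.1 c2, not_le.1 c1⟩]
              norm_num
        have h5 := not_le.1 h2
        linarith
    · refine ⟨.leaf false, Nat.zero_le _, ?_⟩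
      have h4 : er (thr f b) (.leaf false) = ex (thr f b) := by
        unfold er
        congr 1
        funext x
        simp only [DTree.eval]
        rcases thr_zero_or_one f b x with h | h <;> rw [h] <;> simp
      have h5 := not_le.1 h1
      have h6 : 0 ≤ ex (gp f a b) / δ₁ := by positivity
      linarith
  induction k with
  | zero =>
    intro f hf hdeg
    by_cases hW : ∀ i, infl f i < θ
    · exact inact 0 f hf hdeg hW
    · push Not at hW
      obtain ⟨i, hi⟩ := hW
      refine ⟨.leaf true, Nat.zero_le _, ?_⟩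
      have h4 := er_le_one (thr_zero_or_one f b) (.leaf true)
      have h5 : 1 ≤ (∑ j, infl f j) / (θ * (((0 : ℕ) : ℝ) + 1)) := by
        rw [one_le_div (by positivity)]
        have := Finset.single_le_sum (f := fun j => infl f j) (fun j _ => infl_nonneg f j)
          (Finset.mem_univ i)
        push_cast
        linarith
      have h6 : 0 ≤ ex (gp f a b) / δ₁ := div_nonneg (ex_nonneg (gp_nonneg f a b)) hδ0.le
      linarith
  | succ k ih =>
    intro f hf hdeg
    by_cases hW : ∀ i, infl f i < θ
    · exact inact (k + 1) f hf hdeg hW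
    · push Not at hW
      obtain ⟨i, hi⟩ := hW
      have h6 : 0 ≤ ex (gp f a b) / δ₁ := div_nonneg (ex_nonneg (gp_nonneg f a b)) hδ0.le
      by_cases hbig : θ * ((k : ℝ) + 2) ≤ ∑ j, infl f j
      · refine ⟨.leaf true, Nat.zero_le _, ?_⟩
        have h4 := er_le_one (thr_zero_or_one f b) (.leaf true)
        have h5 : 1 ≤ (∑ j, infl f j) / (θ * (((k + 1 : ℕ) : ℝ) + 1)) := by
          rw [one_le_div (by positivity)]
          push_cast
          linarith
        linarith
      · push Not at hbig
        obtain ⟨t, ht1, ht2⟩ := er_node i (T := thr f b)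
          (ih (fun x => f (Function.update x i false)) (fun x => hf _) (restr_deg hdeg i false))
          (ih (fun x => f (Function.update x i true)) (fun x => hf _) (restr_deg hdeg i true))
        refine ⟨t, ht1, ht2.trans ?_⟩
        have e1 : ex (gp (fun x => f (Function.update x i false)) a b) +
            ex (gp (fun x => f (Function.update x i true)) a b) = 2 * ex (gp f a b) := by
          rw [ex_split i (gp f a b)]
          unfold gp
          ring
        have e2 := infl_split f i
        have hk2 : (0 : ℝ) < (k : ℝ) + 1 := by positivity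
        have e3 : (∑ j, infl (fun x => f (Function.update x i false)) j) / (θ * ((k : ℝ) + 1)) +
            (∑ j, infl (fun x => f (Function.update x i true)) j) / (θ * ((k : ℝ) + 1)) ≤
            2 * ((∑ j, infl f j) / (θ * (((k + 1 : ℕ) : ℝ) + 1))) := by
          rw [← add_div]
          have e4 : (∑ j, infl f j - θ) / (θ * ((k : ℝ) + 1)) ≤
              (∑ j, infl f j) / (θ * (((k + 1 : ℕ) : ℝ) + 1)) := by
            rw [div_le_div_iff₀ (by positivity) (by positivity)]
            push_cast
            nlinarith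
          calc (∑ j, infl (fun x => f (Function.update x i false)) j +
                ∑ j, infl (fun x => f (Function.update x i true)) j) / (θ * ((k : ℝ) + 1))
              ≤ (2 * (∑ j, infl f j - θ)) / (θ * ((k : ℝ) + 1)) := by
                apply div_le_div_of_nonneg_right _ (by positivity)
                linarith
            _ = 2 * ((∑ j, infl f j - θ) / (θ * ((k : ℝ) + 1))) := by ring
            _ ≤ _ := by linarith
        have e5 : ex (gp (fun x => f (Function.update x i false)) a b) / δ₁ +
            ex (gp (fun x => f (Function.update x i true)) a b) / δ₁ =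
            2 * (ex (gp f a b) / δ₁) := by
          rw [← add_div, e1]; ring
        linarith

/-- Decision trees, explicit form. -/
theorem sim_main {f : (I → Bool) → ℝ} (hf : ∀ x, |f x| ≤ 1) {d : ℕ} (hd : 1 ≤ d)
    (hdeg : ∀ S : Finset I, d < S.card → coef f S = 0) {a b ε : ℝ} (hab : a < b)
    (hg2 : b - a ≤ 2) (hε : 0 < ε) (hε1 : ε ≤ 1)
    (hgap : ex (gp f a b) ≤ Real.exp (-(256 * d / ((b - a) * ε)) ^ 41)) :
    ∃ t : DTree I, (t.depth : ℝ) ≤ (256 * d / ((b - a) * ε)) ^ 41 ∧
      er (thr f b) t ≤ ε := by
  have hg : 0 < b - a := by linarith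
  have hd' : (1 : ℝ) ≤ d := by exact_mod_cast hd
  have hd0 : (0 : ℝ) < d := by linarith
  set Y : ℝ := 256 * d / ((b - a) * ε) with hY
  have hgε : 0 < (b - a) * ε := by positivity
  have hgε2 : (b - a) * ε ≤ 2 * ε := mul_le_mul_of_nonneg_right hg2 hε.le
  have hYε : 128 * d / ε ≤ Y := by
    rw [hY, div_le_div_iff₀ hε hgε]
    nlinarith
  have hY128 : 128 ≤ Y := by
    refine le_trans ?_ hYε
    rw [le_div_iff₀ hε]
    nlinarith
  have hY0 : 0 < Y := by linarith
  have hv : 64 * (d : ℝ) / ((b - a) * (ε / 4)) = Y := by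
    rw [hY, div_eq_div_iff (by positivity) (by positivity)]
    ring
  have hθ : ((b - a) * (ε / 4) / (64 * (d : ℝ))) ^ 40 = 1 / Y ^ 40 := by
    rw [← hv, ← one_div_pow, one_div_div]
  set k : ℕ := ⌊Y ^ 41⌋₊ with hk
  have hkY : (k : ℝ) ≤ Y ^ 41 := Nat.floor_le (by positivity)
  have hkY' : Y ^ 41 < (k : ℝ) + 1 := Nat.lt_floor_add_one _
  obtain ⟨t, ht1, ht2⟩ := sim_aux (I := I) hd hab (v := ε / 4) (by positivity) rfl rfl k f hf hdeg
  refine ⟨t, le_trans (by exact_mod_cast ht1) hkY, ht2.trans ?_⟩
  rw [hθ, hv]
  have hW : ∑ j, infl f j ≤ d := sum_inf_le hf hdeg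
  have h1 : (∑ j, infl f j) / (1 / Y ^ 40 * ((k : ℝ) + 1)) ≤ ε / 4 := by
    rw [div_le_iff₀ (by positivity)]
    have h2 : (d : ℝ) ≤ ε / 4 * Y := by
      rw [div_le_iff₀ hε] at hYε
      nlinarith
    calc ∑ j, infl f j ≤ ε / 4 * Y := hW.trans h2
      _ = ε / 4 * (1 / Y ^ 40 * Y ^ 41) := by field_simp
      _ ≤ ε / 4 * (1 / Y ^ 40 * ((k : ℝ) + 1)) := by
          apply mul_le_mul_of_nonneg_left _ (by positivity)
          exact mul_le_mul_of_nonneg_left hkY'.le (by positivity)
  have h2 : ex (gp f a b) / Real.exp (-Y ^ 40) ≤ ε / 4 := by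
    rw [div_le_iff₀ (Real.exp_pos _)]
    refine hgap.trans ?_
    have h3 : Real.exp (-Y) ≤ ε / 4 := by
      rw [Real.exp_neg]
      have h4 : Y ≤ Real.exp Y := by
        have := Real.add_one_le_exp Y
        linarith
      have h5 : (Real.exp Y)⁻¹ ≤ Y⁻¹ := inv_anti₀ hY0 h4
      have h6 : Y⁻¹ ≤ ε / 4 := by
        rw [inv_le_comm₀ hY0 (by positivity)]
        refine le_trans ?_ hYε
        rw [inv_div, div_le_div_iff₀ hε hε]
        nlinarith
      linarith
    calc Real.exp (-Y ^ 41) ≤ Real.exp (-Y + -Y ^ 40) := by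
          apply Real.exp_le_exp.2
          have h7 : Y ≤ Y ^ 40 := le_self_pow₀ (by linarith) (by norm_num)
          have h8 : Y ^ 41 = Y * Y ^ 40 := by ring
          have h9 : 0 < Y ^ 40 := by positivity
          rw [h8]
          nlinarith
      _ = Real.exp (-Y) * Real.exp (-Y ^ 40) := Real.exp_add _ _
      _ ≤ ε / 4 * Real.exp (-Y ^ 40) := mul_le_mul_of_nonneg_right h3 (Real.exp_pos _).le
  linarith

end Pool.Agent.Lib_helper30.AA.GAP
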